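import Pool.Agent.Lib.MP_c50dba_nt.LR.Exc

set_option autoImplicit false

/-!
The elements of a finite dimensional space with a relation of bounded degree.
-/

namespace Pool.Agent.Lib.MP_c50dba_nt.LR

open MvPolynomial

variable {F Ω : Type} [Field F] [IsAlgClosed F] [CharZero F] [Field Ω] [Algebra F Ω]

omit [CharZero F] in
theorem exc_family_zero {t : Fin 0 → Ω} (U : Submodule F Ω) (d : ℕ) {x : Ω} (hx : x ∈ U)
    (h : ¬ Ind F d (Fin.cons x t : Fin (0 + 1) → Ω)) : x ∈ U ⊓ Submodule.span F {(1 : Ω)} := by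
  refine ⟨hx, ?_⟩
  unfold Ind at h
  push Not at h
  obtain ⟨Q, -, hQ0, hQne⟩ := h
  have halg : IsAlgebraic F x := by
    refine ⟨(finSuccEquiv F 0 Q).map (isEmptyRingEquiv F (Fin 0)).toRingHom, ?_, ?_⟩
    · rw [Polynomial.map_ne_zero_iff (isEmptyRingEquiv F (Fin 0)).injective]
      exact fun h => hQne ((map_eq_zero_iff _ (finSuccEquiv F 0).injective).mp h)
    · rw [aeval_cons] at hQ0
      rw [Polynomial.aeval_def, Polynomial.eval₂_map, ← hQ0]
      congr 1
      apply MvPolynomial.ringHom_ext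
      · intro a
        simp only [RingEquiv.toRingHom_eq_coe, RingHom.coe_comp, Function.comp_apply,
          AlgHom.toRingHom_eq_coe, RingHom.coe_coe, aeval_C]
        congr 1
        rw [isEmptyRingEquiv_eq_coeff_zero]
        exact coeff_zero_C a
      · intro i
        exact i.elim0
  obtain ⟨y, rfl⟩ := minpoly.mem_range_of_degree_eq_one F x
    (IsAlgClosed.degree_eq_one_of_irreducible F (minpoly.irreducible halg.isIntegral))
  rw [Algebra.algebraMap_eq_smul_one]
  exact Submodule.smul_mem _ _ (Submodule.mem_span_singleton_self 1)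

/-- The family of subspaces. -/
theorem exc_family {s : ℕ} {t : Fin s → Ω}
    (ht : Function.Injective (aeval t : MvPolynomial (Fin s) F →ₐ[F] Ω))
    (U : Submodule F Ω) [FiniteDimensional F U] (d : ℕ) :
    ∃ 𝒱 : Set (Submodule F Ω), 𝒱.Finite ∧
      (∀ V ∈ 𝒱, V ≤ U ∧
        Module.finrank F V ≤ (s + (d + 1) ^ 2 / 4).choose ((d + 1) ^ 2 / 4)) ∧
      ∀ x ∈ U, ¬ Ind F d (Fin.cons x t : Fin (s + 1) → Ω) → ∃ V ∈ 𝒱, x ∈ V := by
  rcases s with _ | s
  · refine ⟨{U ⊓ Submodule.span F {(1 : Ω)}}, Set.finite_singleton _, ?_, ?_⟩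
    · intro V hV
      rw [Set.mem_singleton_iff] at hV
      subst hV
      refine ⟨inf_le_left, ?_⟩
      rw [zero_add, Nat.choose_self]
      refine (Submodule.finrank_mono inf_le_right).trans ?_
      exact (finrank_span_le_card ({(1 : Ω)} : Set Ω)).trans (by simp)
    · intro x hx h
      exact ⟨_, rfl, exc_family_zero U d hx h⟩
  · let _ : Algebra (MvPolynomial (Fin (s + 1)) F) Ω :=
      (aeval t : MvPolynomial (Fin (s + 1)) F →ₐ[F] Ω).toRingHom.toAlgebra
    have hfaith : FaithfulSMul (MvPolynomial (Fin (s + 1)) F) Ω :=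
      (faithfulSMul_iff_algebraMap_injective _ _).mpr ht
    have htow : IsScalarTower F (MvPolynomial (Fin (s + 1)) F) Ω :=
      IsScalarTower.of_algebraMap_eq fun f => by
        show _ = (aeval t : MvPolynomial (Fin (s + 1)) F →ₐ[F] Ω) (C f)
        rw [aeval_C]
    let _ : Algebra (FractionRing (MvPolynomial (Fin (s + 1)) F)) Ω :=
      FractionRing.liftAlgebra (MvPolynomial (Fin (s + 1)) F) Ω
    have htow2 : IsScalarTower (MvPolynomial (Fin (s + 1)) F)
      (FractionRing (MvPolynomial (Fin (s + 1)) F)) Ω :=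
      FractionRing.isScalarTower_liftAlgebra (MvPolynomial (Fin (s + 1)) F) Ω
    exact exc_family_aux (FractionRing (MvPolynomial (Fin (s + 1)) F)) (t := t) (fun P => rfl)
      (T := X 0) (totalDegree_X _) U d

/-- The combinations with integer coefficients which lie in a subspace. -/
def grp {M : ℕ} (l : Fin M → Ω) (V : Submodule F Ω) : AddSubgroup (Fin M → ℤ) where
  carrier := {k | ∑ i, (k i : F) • l i ∈ V}
  add_mem' := by
    intro k k' hk hk'
    rw [Set.mem_ofPred_eq] at hk hk' ⊢
    have h : ∑ i, ((k + k') i : F) • l i = ∑ i, (k i : F) • l i + ∑ i, (k' i : F) • l i := by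
      rw [← Finset.sum_add_distrib]
      refine Finset.sum_congr rfl fun i _ => ?_
      rw [Pi.add_apply, Int.cast_add, add_smul]
    rw [h]
    exact V.add_mem hk hk'
  zero_mem' := by
    rw [Set.mem_ofPred_eq]
    simp
  neg_mem' := by
    intro k hk
    rw [Set.mem_ofPred_eq] at hk ⊢
    have h : ∑ i, ((-k) i : F) • l i = - ∑ i, (k i : F) • l i := by
      rw [← Finset.sum_neg_distrib]
      refine Finset.sum_congr rfl fun i _ => ?_
      rw [Pi.neg_apply, Int.cast_neg, neg_smul]
    rw [h]
    exact V.neg_mem hk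

omit [IsAlgClosed F] [CharZero F] in
theorem mem_grp {M : ℕ} {l : Fin M → Ω} {V : Submodule F Ω} {k : Fin M → ℤ} :
    k ∈ grp l V ↔ ∑ i, (k i : F) • l i ∈ V := Iff.rfl

omit [IsAlgClosed F] in
/-- Integer vectors which are independent over the integers are independent over `F`. -/
theorem li_int {n M : ℕ} (h : Fin n → Fin M → ℤ) (hh : LinearIndependent ℤ h) :
    LinearIndependent F (fun j i => (h j i : F)) := by
  let _ : Algebra ℚ F := DivisionRing.toRatAlgebra
  -- over the rationals
  have hQ : LinearIndependent ℚ (fun j i => (h j i : ℚ)) := by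
    rw [← LinearIndependent.iff_fractionRing ℤ ℚ]
    let φ : (Fin M → ℤ) →ₗ[ℤ] (Fin M → ℚ) :=
      { toFun := fun v i => (v i : ℚ)
        map_add' := fun v w => by funext i; simp
        map_smul' := fun c v => by funext i; simp }
    refine hh.map' φ ?_
    rw [LinearMap.ker_eq_bot]
    intro v w hvw
    funext i
    have h1 : ((v i : ℤ) : ℚ) = (w i : ℚ) := congrFun hvw i
    exact_mod_cast h1
  rw [Fintype.linearIndependent_iff] at hQ ⊢
  intro f hf j
  rw [← Module.forall_dual_apply_eq_zero_iff ℚ]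
  intro φ
  refine hQ (fun j => φ (f j)) ?_ j
  funext i
  have h1 := congrFun hf i
  rw [Finset.sum_apply] at h1 ⊢
  have h2 := congrArg φ h1
  rw [map_sum] at h2
  rw [Pi.zero_apply, map_zero] at h2
  rw [Pi.zero_apply, ← h2]
  refine Finset.sum_congr rfl fun j _ => ?_
  have h3 : f j * (h j i : F) = (h j i : ℚ) • f j := by
    rw [Algebra.smul_def, map_intCast, mul_comm]
  rw [Pi.smul_apply, Pi.smul_apply, smul_eq_mul, smul_eq_mul, h3, map_smul, smul_eq_mul, mul_comm]

omit [IsAlgClosed F] in
/-- The rank of the group. -/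
theorem finrank_grp_le {M : ℕ} {l : Fin M → Ω} (hl : LinearIndependent F l) (V : Submodule F Ω)
    [FiniteDimensional F V] : Module.finrank ℤ (grp l V) ≤ Module.finrank F V := by
  have hfree : Module.Free ℤ (grp l V) :=
    inferInstanceAs (Module.Free ℤ (AddSubgroup.toIntSubmodule (grp l V)))
  have hfinite : Module.Finite ℤ (grp l V) :=
    inferInstanceAs (Module.Finite ℤ (AddSubgroup.toIntSubmodule (grp l V)))
  let b := Module.finBasis ℤ (grp l V)
  have hb : LinearIndependent ℤ (fun j => (b j : Fin M → ℤ)) :=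
    b.linearIndependent.map' (grp l V).subtype.toIntLinearMap (by
      rw [LinearMap.ker_eq_bot]
      exact Subtype.val_injective)
  have h1 := li_int (F := F) _ hb
  have h2 : LinearIndependent F (fun j => ∑ i, ((b j : Fin M → ℤ) i : F) • l i) := by
    have h3 := h1.map' (Fintype.linearCombination F l) (by
      rw [LinearMap.ker_eq_bot]
      exact linearIndependent_iff_injective_fintypeLinearCombination.mp hl)
    have h4 : (fun j => ∑ i, ((b j : Fin M → ℤ) i : F) • l i) =
        (Fintype.linearCombination F l) ∘ (fun j i => ((b j : Fin M → ℤ) i : F)) := by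
      funext j
      rfl
    rw [h4]
    exact h3
  have h4 : LinearIndependent F (fun j => (⟨∑ i, ((b j : Fin M → ℤ) i : F) • l i,
      (b j).2⟩ : V)) := by
    apply LinearIndependent.of_comp V.subtype
    exact h2
  have h5 := h4.fintype_card_le_finrank
  rwa [Fintype.card_fin] at h5

/-- The exceptional cosets. -/
theorem exc_cosets {s : ℕ} {t : Fin s → Ω}
    (ht : Function.Injective (aeval t : MvPolynomial (Fin s) F →ₐ[F] Ω))
    {M : ℕ} {l : Fin M → Ω} (hl : LinearIndependent F l) (y : Ω) (d : ℕ) :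
    ∃ E : Finset ((Fin M → ℤ) × AddSubgroup (Fin M → ℤ)),
      (∀ e ∈ E, Module.finrank ℤ e.2 ≤ (s + (d + 1) ^ 2 / 4).choose s) ∧
      ∀ k : Fin M → ℤ, ¬ Ind F d (Fin.cons (y + ∑ i, (k i : F) • l i) t : Fin (s + 1) → Ω) →
        ∃ e ∈ E, k - e.1 ∈ e.2 := by
  classical
  let U : Submodule F Ω := Submodule.span F (insert y (Set.range l))
  have hfin : FiniteDimensional F U :=
    FiniteDimensional.span_of_finite F ((Set.finite_range l).insert y)
  obtain ⟨𝒱, hfin𝒱, h1, h2⟩ := exc_family ht U d
  have hmem : ∀ k : Fin M → ℤ, y + ∑ i, (k i : F) • l i ∈ U := by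
    intro k
    refine U.add_mem (Submodule.subset_span (Set.mem_insert _ _)) (U.sum_mem fun i _ =>
      U.smul_mem _ (Submodule.subset_span (Set.mem_insert_of_mem _ ⟨i, rfl⟩)))
  let base : Submodule F Ω → (Fin M → ℤ) := fun V =>
    if h : ∃ k : Fin M → ℤ, y + ∑ i, (k i : F) • l i ∈ V then h.choose else 0
  refine ⟨hfin𝒱.toFinset.image (fun V => (base V, grp l V)), ?_, ?_⟩
  · intro e he
    obtain ⟨V, hV, rfl⟩ := Finset.mem_image.mp he
    rw [Set.Finite.mem_toFinset] at hV
    have hle := (h1 V hV).1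
    have hfinV : FiniteDimensional F V := Submodule.finiteDimensional_of_le hle
    refine (finrank_grp_le hl V).trans ((h1 V hV).2.trans ?_)
    rw [Nat.choose_symm_add]
  · intro k hk
    obtain ⟨V, hV, hkV⟩ := h2 _ (hmem k) hk
    have hex : ∃ k : Fin M → ℤ, y + ∑ i, (k i : F) • l i ∈ V := ⟨k, hkV⟩
    refine ⟨(base V, grp l V), Finset.mem_image.mpr ⟨V, by rwa [Set.Finite.mem_toFinset], rfl⟩, ?_⟩
    have hb : y + ∑ i, (base V i : F) • l i ∈ V := by
      have : base V = hex.choose := dif_pos hex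
      rw [this]
      exact hex.choose_spec
    rw [mem_grp]
    have h3 : ∑ i, ((k - base V) i : F) • l i =
        (y + ∑ i, (k i : F) • l i) - (y + ∑ i, (base V i : F) • l i) := by
      rw [add_sub_add_left_eq_sub, ← Finset.sum_sub_distrib]
      refine Finset.sum_congr rfl fun i _ => ?_
      rw [Pi.sub_apply, Int.cast_sub, sub_smul]
    rw [h3]
    exact V.sub_mem hkV hb

end Pool.Agent.Lib.MP_c50dba_nt.LR
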