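import Pool.Agent.Lib.MP_c50dba_nt.Gen.Point

set_option autoImplicit false

/-!
The key lemma: a large space contains an element which is independent, up to total degree `d`, of
a given tuple which is independent up to total degree `d`.
-/

namespace Pool.Agent.Lib.MP_c50dba_nt.LR

open MvPolynomial Pool.Agent.Lib.MP_c50dba_nt.Gen

/-- There is no nonzero relation of total degree at most `d` with coefficients in `F`. -/
def Ind (F : Type) {Ω : Type} [Field F] [Field Ω] [Algebra F Ω] {σ : Type} (d : ℕ) (t : σ → Ω) :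
    Prop :=
  ∀ P : MvPolynomial σ F, P.totalDegree ≤ d → aeval t P = 0 → P = 0

/-- The dimension of the space of polynomials of total degree at most `d` in `s` variables. -/
theorem finrank_restrict (F : Type) [Field F] (s d : ℕ) :
    Module.finrank F (restrictTotalDegree (Fin s) F d) = (s + d).choose d := by
  classical
  set S : Set (Fin s →₀ ℕ) := { n | (n.sum fun _ e => e) ≤ d } with hS
  have h1 : Module.finrank F (restrictTotalDegree (Fin s) F d) = Nat.card S :=
    Module.finrank_eq_nat_card_basis (basisRestrictSupport F S)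
  -- a slack variable
  have hsum : ∀ n : Fin s →₀ ℕ, (n.sum fun _ e => e) = ∑ i, n i :=
    fun n => Finsupp.sum_fintype _ _ (fun _ => rfl)
  let e : S ≃ {P : Fin (s + 1) → ℕ // ∑ i, P i = d} :=
    { toFun := fun n => ⟨Fin.cons (d - ∑ i, n.1 i) n.1, by
        have h2 : (n.1.sum fun _ e => e) ≤ d := n.2
        rw [hsum] at h2
        rw [Fin.sum_univ_succ]
        simp only [Fin.cons_zero, Fin.cons_succ]
        omega⟩
      invFun := fun P => ⟨Finsupp.equivFunOnFinite.symm (fun i => P.1 i.succ), by
        show (Finsupp.sum _ fun _ e => e) ≤ d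
        rw [hsum]
        have h2 := P.2
        rw [Fin.sum_univ_succ] at h2
        simp only [Finsupp.equivFunOnFinite_symm_apply_apply]
        omega⟩
      left_inv := fun n => by
        apply Subtype.ext
        ext i
        simp
      right_inv := fun P => by
        apply Subtype.ext
        funext i
        have h2 := P.2
        rw [Fin.sum_univ_succ] at h2
        refine Fin.cases ?_ (fun j => ?_) i
        · simp only [Fin.cons_zero, Finsupp.equivFunOnFinite_symm_apply_apply]
          omega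
        · simp only [Fin.cons_succ, Finsupp.equivFunOnFinite_symm_apply_apply] }
  rw [h1, Nat.card_congr (e.trans (Sym.equivNatSumOfFintype (Fin (s + 1)) d).symm),
    Nat.card_eq_fintype_card, Sym.card_sym_eq_choose, Fintype.card_fin]
  congr 1
  omega

section

variable {F Ω : Type} [Field F] [Field Ω] [Algebra F Ω]

theorem aeval_cons {B : Type} [CommRing B] [Algebra F B] {s : ℕ} (t : Fin s → B) (w : B)
    (Q : MvPolynomial (Fin (s + 1)) F) :
    aeval (Fin.cons w t : Fin (s + 1) → B) Q =
      (finSuccEquiv F s Q).eval₂ (aeval t : MvPolynomial (Fin s) F →ₐ[F] B).toRingHom w := by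
  induction Q using MvPolynomial.induction_on with
  | C a =>
    rw [aeval_C, finSuccEquiv_apply]
    simp
  | add p q hp hq => rw [map_add, map_add, Polynomial.eval₂_add, hp, hq]
  | mul_X p i hp =>
    rw [map_mul, map_mul, Polynomial.eval₂_mul, hp, aeval_X]
    congr 1
    refine Fin.cases ?_ (fun j => ?_) i
    · rw [finSuccEquiv_X_zero, Polynomial.eval₂_X, Fin.cons_zero]
    · rw [finSuccEquiv_X_succ, Polynomial.eval₂_C, Fin.cons_succ]
      simp

theorem exists_points [IsAlgClosed F] {B : Type} [CommRing B] [IsDomain B] [Algebra F B]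
    [Algebra.FiniteType F B] {s d : ℕ} (t : Fin s → B)
    (ht : ∀ P : MvPolynomial (Fin s) F, P.totalDegree ≤ d → aeval t P = 0 → P = 0) :
    ∃ (n : ℕ) (v : Fin n → B →ₐ[F] F), n ≤ (s + d).choose d ∧
      ∀ P : MvPolynomial (Fin s) F, P.totalDegree ≤ d → (∀ i, v i (aeval t P) = 0) → P = 0 := by
  classical
  let PP := restrictTotalDegree (Fin s) F d
  let ev : (B →ₐ[F] F) → (PP →ₗ[F] F) := fun v =>
    (v.comp (aeval t : MvPolynomial (Fin s) F →ₐ[F] B)).toLinearMap.comp PP.subtype
  obtain ⟨f, hf1, hf2, -⟩ := Submodule.exists_fun_fin_finrank_span_eq F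
    (Set.range ev : Set (PP →ₗ[F] F))
  choose v hv using hf1
  refine ⟨_, v, ?_, ?_⟩
  · refine (Submodule.finrank_le _).trans ?_
    rw [show Module.finrank F (PP →ₗ[F] F) = Module.finrank F PP from Subspace.dual_finrank_eq,
      finrank_restrict]
  · intro P hP h0
    by_contra hne
    have h1 : aeval t P ≠ 0 := fun h => hne (ht P hP h)
    obtain ⟨w, hw⟩ := stPoint F B _ h1
    have hmem : P ∈ PP := (mem_restrictTotalDegree _ _ P).mpr hP
    have h2 : ev w ∈ Submodule.span F (Set.range f) := by
      rw [hf2]; exact Submodule.subset_span ⟨w, rfl⟩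
    have h3 : Submodule.span F (Set.range f) ≤
        LinearMap.ker (LinearMap.applyₗ (R := F) (⟨P, hmem⟩ : PP) : (PP →ₗ[F] F) →ₗ[F] F) := by
      rw [Submodule.span_le]
      rintro _ ⟨i, rfl⟩
      rw [SetLike.mem_coe, LinearMap.mem_ker, ← hv i]
      exact h0 i
    have h4 := h3 h2
    rw [LinearMap.mem_ker] at h4
    exact hw h4

/-- The key lemma. -/
theorem exists_ind [IsAlgClosed F] {s d M : ℕ} (t : Fin s → Ω) (ht : Ind F d t) (l : Fin M → Ω)
    (hl : LinearIndependent F l) (hM : (s + d).choose d < M) :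
    ∃ c : Fin M → F, Ind F d (Fin.cons (∑ i, c i • l i) t : Fin (s + 1) → Ω) := by
  classical
  let B : Subalgebra F Ω := Algebra.adjoin F (Set.range t ∪ Set.range l)
  have hfin : Algebra.FiniteType F B :=
    (Subalgebra.fg_iff_finiteType B).mp ((Subalgebra.fg_def).mpr ⟨Set.range t ∪ Set.range l,
      (Set.finite_range t).union (Set.finite_range l), rfl⟩)
  have htB : ∀ i, t i ∈ B := fun i => Algebra.subset_adjoin (Or.inl ⟨i, rfl⟩)
  have hlB : ∀ i, l i ∈ B := fun i => Algebra.subset_adjoin (Or.inr ⟨i, rfl⟩)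
  let t' : Fin s → B := fun i => ⟨t i, htB i⟩
  let l' : Fin M → B := fun i => ⟨l i, hlB i⟩
  have hcoe : ∀ P : MvPolynomial (Fin s) F, ((aeval t' P : B) : Ω) = aeval t P := by
    intro P
    have : (B.val).comp (aeval t') = (aeval t : MvPolynomial (Fin s) F →ₐ[F] Ω) := by
      ext i; simp [t']
    exact DFunLike.congr_fun this P
  obtain ⟨n, v, hn, hv⟩ := exists_points (d := d) t' (fun P hP h => ht P hP (by
    rw [← hcoe, h]; rfl))
  let Φ : (Fin M → F) →ₗ[F] (Fin n → F) :=
    LinearMap.pi fun i => (v i).toLinearMap.comp (Fintype.linearCombination F l')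
  have hΦ : LinearMap.ker Φ ≠ ⊥ := by
    apply LinearMap.ker_ne_bot_of_finrank_lt
    rw [Module.finrank_fin_fun, Module.finrank_fin_fun]
    omega
  obtain ⟨c, hc, hc0⟩ := Submodule.exists_mem_ne_zero_of_ne_bot hΦ
  have hvw : ∀ i, v i (∑ j, c j • l' j) = 0 := by
    intro i
    have := congrFun (LinearMap.mem_ker.mp hc) i
    simpa [Φ, Fintype.linearCombination_apply] using this
  set w' : B := ∑ j, c j • l' j with hw'
  set w : Ω := ∑ i, c i • l i with hw
  have hww : (w' : Ω) = w := by
    rw [hw', hw]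
    simp [l']
  have hw0 : w ≠ 0 := by
    intro h
    apply hc0
    funext i
    exact Fintype.linearIndependent_iff.mp hl c h i
  refine ⟨c, ?_⟩
  intro Q hQ hQ0
  by_contra hne
  set p := finSuccEquiv F s Q with hp
  have hp0 : p ≠ 0 := by
    rw [hp]
    exact fun h => hne ((map_eq_zero_iff _ (finSuccEquiv F s).injective).mp h)
  set j₀ := p.natTrailingDegree with hj
  obtain ⟨p', hp'⟩ : Polynomial.X ^ j₀ ∣ p := by
    rw [Polynomial.X_pow_dvd_iff]
    intro k hk
    exact Polynomial.coeff_eq_zero_of_lt_natTrailingDegree hk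
  have hcoeff : p'.coeff 0 = p.coeff j₀ := by
    have := Polynomial.coeff_X_pow_mul p' j₀ 0
    rw [zero_add] at this
    rw [hp', this]
  have hcne : p'.coeff 0 ≠ 0 := by
    rw [hcoeff]
    exact Polynomial.trailingCoeff_nonzero_iff_nonzero.mpr hp0
  have hdeg : (p'.coeff 0).totalDegree ≤ d := by
    rw [hcoeff] at hcne ⊢
    have h6 := totalDegree_coeff_finSuccEquiv_add_le Q j₀ hcne
    rw [← hp] at h6
    omega
  apply hcne
  apply hv _ hdeg
  intro i
  -- `p'` vanishes at `w`
  have h1 : p.eval₂ (aeval t : MvPolynomial (Fin s) F →ₐ[F] Ω).toRingHom w = 0 := by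
    rw [← aeval_cons]; exact hQ0
  rw [hp', Polynomial.eval₂_mul, Polynomial.eval₂_X_pow] at h1
  have h2 : p'.eval₂ (aeval t : MvPolynomial (Fin s) F →ₐ[F] Ω).toRingHom w = 0 :=
    (mul_eq_zero.mp h1).resolve_left (pow_ne_zero _ hw0)
  have h3 : p'.eval₂ (aeval t' : MvPolynomial (Fin s) F →ₐ[F] B).toRingHom w' = 0 := by
    apply Subtype.ext
    rw [← hww] at h2
    have h4 : (B.val : B →ₐ[F] Ω).toRingHom
        (p'.eval₂ (aeval t' : MvPolynomial (Fin s) F →ₐ[F] B).toRingHom w') =
        p'.eval₂ (aeval t : MvPolynomial (Fin s) F →ₐ[F] Ω).toRingHom (w' : Ω) := by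
      rw [Polynomial.hom_eval₂]
      congr 1
      apply RingHom.ext
      intro P
      exact hcoe P
    exact h4.trans h2
  have h5 := congrArg (v i).toRingHom h3
  rw [Polynomial.hom_eval₂, map_zero] at h5
  rw [show (v i).toRingHom w' = 0 from hvw i, Polynomial.eval₂_at_zero] at h5
  exact h5

end

end Pool.Agent.Lib.MP_c50dba_nt.LR
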