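import Pool.Agent.Lib.MP_c50dba_nt.LR.Count
import Pool.Agent.Lib.MP_c50dba_nt.Gen.Spec

set_option autoImplicit false

/-!
Translation between relations over the algebraic closure and relations with algebraic
coefficients; logarithms of products of powers.
-/

namespace Pool.Agent.Lib.MP_c50dba_nt.LR

open MvPolynomial Pool.Agent.Lib.MP_c50dba_nt Pool.Agent.Lib.MP_c50dba_nt.Gen

theorem totalDegree_map_inj {R S σ : Type} [CommSemiring R] [CommSemiring S] {f : R →+* S}
    (hf : Function.Injective f) (P : MvPolynomial σ R) :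
    (map f P).totalDegree = P.totalDegree := by
  unfold totalDegree
  rw [support_map_of_injective P hf]

theorem ind_iff_coeff {Ω σ : Type} [Field Ω] [Algebra ℚ Ω] (d : ℕ) (u : σ → Ω) :
    Ind (algebraicClosure ℚ Ω) d u ↔
      ∀ P : MvPolynomial σ Ω, P ≠ 0 → P.totalDegree ≤ d → (∀ m, IsAlgebraic ℚ (P.coeff m)) →
        eval u P ≠ 0 := by
  classical
  have hinj : Function.Injective (algebraMap (algebraicClosure ℚ Ω) Ω) :=
    (algebraMap (algebraicClosure ℚ Ω) Ω).injective
  constructor
  · intro h P hP hd ha h0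
    obtain ⟨Q, hQ⟩ : P ∈ Set.range (map (σ := σ) (algebraMap (algebraicClosure ℚ Ω) Ω)) := by
      rw [mem_range_map_iff_coeffs_subset]
      intro x hx
      obtain ⟨m, -, rfl⟩ := mem_coeffs_iff.mp hx
      exact ⟨⟨P.coeff m, mem_algebraicClosure_iff.2 (ha m)⟩, rfl⟩
    apply hP
    rw [← hQ, h Q ?_ ?_, map_zero]
    · have h2 : Q.totalDegree = P.totalDegree := by
        rw [← hQ]
        exact (totalDegree_map_inj hinj Q).symm
      rw [h2]
      exact hd
    · rw [← hQ, eval_map] at h0
      rw [aeval_def]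
      exact h0
  · intro h Q hd h0
    by_contra hne
    apply h (map (algebraMap (algebraicClosure ℚ Ω) Ω) Q)
    · intro h1
      exact hne (map_injective _ hinj (by rw [h1, map_zero]))
    · rw [totalDegree_map_inj hinj Q]
      exact hd
    · intro m
      rw [coeff_map]
      exact mem_algebraicClosure_iff.1 (SetLike.coe_mem _)
    · rw [eval_map]
      rw [aeval_def] at h0
      exact h0

theorem log_one {p : ℕ} [Fact p.Prime] {L : PadicAlgCl p → PadicAlgCl p}
    (hL : IsIwasawaLog p L) : L 1 = 0 := by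
  have h := hL.1 1 1 one_ne_zero one_ne_zero
  rw [mul_one] at h
  exact left_eq_add.mp h

theorem log_inv {p : ℕ} [Fact p.Prime] {L : PadicAlgCl p → PadicAlgCl p}
    (hL : IsIwasawaLog p L) {x : PadicAlgCl p} (hx : x ≠ 0) : L x⁻¹ = - L x := by
  have h := hL.1 x x⁻¹ hx (inv_ne_zero hx)
  rw [mul_inv_cancel₀ hx, log_one hL] at h
  exact eq_neg_of_add_eq_zero_right h.symm

theorem log_pow {p : ℕ} [Fact p.Prime] {L : PadicAlgCl p → PadicAlgCl p}
    (hL : IsIwasawaLog p L) {x : PadicAlgCl p} (hx : x ≠ 0) (n : ℕ) : L (x ^ n) = n * L x := by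
  induction n with
  | zero => rw [pow_zero, log_one hL, Nat.cast_zero, zero_mul]
  | succ n ih =>
    rw [pow_succ, hL.1 _ _ (pow_ne_zero _ hx) hx, ih]
    push_cast
    ring

theorem log_zpow {p : ℕ} [Fact p.Prime] {L : PadicAlgCl p → PadicAlgCl p}
    (hL : IsIwasawaLog p L) {x : PadicAlgCl p} (hx : x ≠ 0) (n : ℤ) : L (x ^ n) = n * L x := by
  rcases Int.eq_nat_or_neg n with ⟨m, rfl | rfl⟩
  · rw [zpow_natCast, log_pow hL hx]
    push_cast
    ring
  · rw [zpow_neg, zpow_natCast, log_inv hL (pow_ne_zero _ hx), log_pow hL hx]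
    push_cast
    ring

theorem log_prod {p : ℕ} [Fact p.Prime] {L : PadicAlgCl p → PadicAlgCl p}
    (hL : IsIwasawaLog p L) {ι : Type} (S : Finset ι) (a : ι → PadicAlgCl p)
    (ha : ∀ i, a i ≠ 0) (k : ι → ℤ) :
    L (∏ i ∈ S, a i ^ k i) = ∑ i ∈ S, (k i : PadicAlgCl p) * L (a i) := by
  classical
  induction S using Finset.induction_on with
  | empty => rw [Finset.prod_empty, Finset.sum_empty, log_one hL]
  | insert i S hi ih =>
    rw [Finset.prod_insert hi, Finset.sum_insert hi,
      hL.1 _ _ (zpow_ne_zero _ (ha i)) (Finset.prod_ne_zero_iff.mpr fun j _ =>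
        zpow_ne_zero _ (ha j)), ih, log_zpow hL (ha i)]

/-- The theorem of Baker and Brumer: independence over the algebraic closure. -/
theorem li_of_baker (h : StBaker) {p : ℕ} [Fact p.Prime] {L : PadicAlgCl p → PadicAlgCl p}
    (hL : IsIwasawaLog p L) {M : ℕ} (a : Fin M → PadicAlgCl p) (ha : ∀ i, a i ≠ 0)
    (halg : ∀ i, IsAlgebraic ℚ (a i)) (hli : LinearIndependent ℚ (fun i => L (a i))) :
    LinearIndependent (algebraicClosure ℚ (PadicAlgCl p)) (fun i => L (a i)) := by
  rw [Fintype.linearIndependent_iff]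
  intro g hg i
  have h1 := h p L hL M a ha halg hli (fun i => (g i : PadicAlgCl p))
    (fun i => mem_algebraicClosure_iff.1 (SetLike.coe_mem _)) (by
      rw [← hg]
      rfl)
  have h2 := congrFun h1 i
  exact Subtype.ext h2

end Pool.Agent.Lib.MP_c50dba_nt.LR
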