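import Pool.Agent.Lib.MP_c50dba_nt.LR.Family

set_option autoImplicit false

/-!
Tuples of elements of a large space: outside the zeros of a nonzero polynomial of bounded degree
they satisfy no relation of total degree at most `d`.
-/

namespace Pool.Agent.Lib.MP_c50dba_nt.LR

open MvPolynomial

section

variable {F Ω : Type} [Field F] [Field Ω] [Algebra F Ω]

theorem Ind.comp_equiv {σ τ : Type} {d : ℕ} {u : σ → Ω} (h : Ind F d u) (e : τ ≃ σ) :
    Ind F d (u ∘ e) := by
  intro P hP h0
  have h1 : rename e P = 0 := by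
    apply h
    · exact (totalDegree_rename_le _ _).trans hP
    · rw [aeval_rename]; exact h0
  exact (rename_injective e e.injective) (by rw [h1, map_zero])

theorem Ind.snoc {n d : ℕ} {u : Fin n → Ω} {x : Ω} (h : Ind F d (Fin.cons x u : Fin (n + 1) → Ω)) :
    Ind F d (Fin.snoc u x : Fin (n + 1) → Ω) := by
  rw [Fin.snoc_eq_cons_rotate]
  exact h.comp_equiv (finRotate (n + 1))

theorem append_snoc' {s r : ℕ} (t : Fin s → Ω) (w : Fin r → Ω) (x : Ω) :
    (Fin.append t (Fin.snoc w x : Fin (r + 1) → Ω) : Fin (s + (r + 1)) → Ω) =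
      (Fin.snoc (Fin.append t w) x : Fin (s + r + 1) → Ω) := by
  funext i
  refine Fin.lastCases ?_ (fun i => ?_) i
  · have : Fin.append t (Fin.snoc w x : Fin (r + 1) → Ω) (Fin.natAdd s (Fin.last r)) =
        (Fin.snoc w x : Fin (r + 1) → Ω) (Fin.last r) := Fin.append_right t _ (Fin.last r)
    rw [Fin.snoc_last] at this
    have h2 : (Fin.snoc (Fin.append t w) x : Fin (s + r + 1) → Ω) (Fin.last (s + r)) = x :=
      Fin.snoc_last _ _
    exact this.trans h2.symm
  · rw [Fin.snoc_castSucc]
    refine Fin.addCases (fun a => ?_) (fun b => ?_) i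
    · rw [Fin.append_left]
      exact Fin.append_left t _ a
    · rw [Fin.append_right]
      have : Fin.append t (Fin.snoc w x : Fin (r + 1) → Ω) (Fin.natAdd s b.castSucc) =
          (Fin.snoc w x : Fin (r + 1) → Ω) b.castSucc := Fin.append_right t _ b.castSucc
      rw [Fin.snoc_castSucc] at this
      exact this

/-- Tuples of elements of large spaces. -/
theorem exists_tuple [IsAlgClosed F] {s d M : ℕ} (t : Fin s → Ω) (ht : Ind F d t) (r : ℕ)
    (l : Fin r → Fin M → Ω) (hl : ∀ j, LinearIndependent F (l j))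
    (hM : ∀ j < r, (s + j + d).choose d < M) :
    ∃ c : Fin r → Fin M → F,
      Ind F d (Fin.append t (fun j => ∑ i, c j i • l j i) : Fin (s + r) → Ω) := by
  induction r with
  | zero =>
    refine ⟨fun j => j.elim0, ?_⟩
    have : (Fin.append t (fun j : Fin 0 => ∑ i, (fun j : Fin 0 => (j.elim0 : Fin M → F)) j i •
        l j i) : Fin (s + 0) → Ω) = t := by
      funext i
      exact Fin.append_left t _ i
    rw [this]
    exact ht
  | succ r ih =>
    obtain ⟨c, hc⟩ := ih (fun j => l j.castSucc) (fun j => hl _) (fun j hj => hM j (by omega))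
    obtain ⟨c', hc'⟩ := exists_ind _ hc (l (Fin.last r)) (hl _) (hM r (by omega))
    refine ⟨Fin.snoc c c', ?_⟩
    have h1 : (fun j : Fin (r + 1) => ∑ i, (Fin.snoc c c' : Fin (r + 1) → Fin M → F) j i • l j i) =
        (Fin.snoc (fun j : Fin r => ∑ i, c j i • l j.castSucc i) (∑ i, c' i • l (Fin.last r) i) :
          Fin (r + 1) → Ω) := by
      funext j
      refine Fin.lastCases ?_ (fun j => ?_) j
      · simp only [Fin.snoc_last]
      · simp only [Fin.snoc_castSucc]
    rw [h1, append_snoc']
    exact hc'.snoc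

/-- The products of powers of the elements of a tuple of polynomials. -/
noncomputable def fam {σ : Type} {s r : ℕ} (d : ℕ) (t : Fin s → Ω) (v : Fin r → MvPolynomial σ Ω)
    (κ : Ex (s + r) d) : MvPolynomial σ Ω :=
  ∏ i, (Fin.append (fun i => C (t i)) v : Fin (s + r) → MvPolynomial σ Ω) i ^ (κ.1 i)

theorem fam_deg {σ : Type} {s r d : ℕ} (t : Fin s → Ω) (v : Fin r → MvPolynomial σ Ω)
    (hv : ∀ j, (v j).totalDegree ≤ 1) (κ : Ex (s + r) d) : (fam d t v κ).totalDegree ≤ d := by
  unfold fam
  refine (totalDegree_finsetProd _ _).trans ?_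
  refine le_trans (Finset.sum_le_sum fun i _ => ?_) κ.2
  refine (totalDegree_pow _ _).trans ?_
  have h : ((Fin.append (fun i => C (t i)) v : Fin (s + r) → MvPolynomial σ Ω) i).totalDegree ≤ 1 := by
    refine Fin.addCases (fun a => ?_) (fun b => ?_) i
    · rw [Fin.append_left, totalDegree_C]; exact Nat.zero_le _
    · rw [Fin.append_right]; exact hv b
  calc κ.1 i * _ ≤ κ.1 i * 1 := Nat.mul_le_mul_left _ h
    _ = κ.1 i := mul_one _

theorem eval_fam {σ : Type} {s r d : ℕ} (t : Fin s → Ω) (v : Fin r → MvPolynomial σ Ω)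
    (x : σ → Ω) (κ : Ex (s + r) d) :
    eval x (fam d t v κ) =
      ∏ i, (Fin.append t (fun j => eval x (v j)) : Fin (s + r) → Ω) i ^ (κ.1 i) := by
  unfold fam
  rw [map_prod]
  refine Finset.prod_congr rfl fun i _ => ?_
  rw [map_pow]
  congr 1
  refine Fin.addCases (fun a => ?_) (fun b => ?_) i
  · rw [Fin.append_left, Fin.append_left, eval_C]
  · rw [Fin.append_right, Fin.append_right]

theorem li_scale {n d : ℕ} (u : Fin n → Ω) (a : Fin n → F) (ha : ∀ i, a i ≠ 0)
    (h : LI F d (fun i => a i • u i)) : LI F d u := by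
  unfold LI at h ⊢
  rw [Fintype.linearIndependent_iff] at h ⊢
  intro g hg κ
  have h1 : ∀ κ : Ex n d, ∏ i, (a i • u i) ^ (κ.1 i) =
      (∏ i, a i ^ (κ.1 i)) • ∏ i, u i ^ (κ.1 i) := by
    intro κ
    rw [Algebra.smul_def, map_prod, ← Finset.prod_mul_distrib]
    refine Finset.prod_congr rfl fun i _ => ?_
    rw [Algebra.smul_def, mul_pow, map_pow]
  have hne : ∀ κ : Ex n d, (∏ i, a i ^ (κ.1 i)) ≠ 0 :=
    fun κ => Finset.prod_ne_zero_iff.mpr fun i _ => pow_ne_zero _ (ha i)
  have h2 := h (fun κ => g κ * (∏ i, a i ^ (κ.1 i))⁻¹) (by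
    rw [← hg]
    refine Finset.sum_congr rfl fun κ _ => ?_
    rw [h1, smul_smul, mul_assoc, inv_mul_cancel₀ (hne κ), mul_one]) κ
  exact (mul_eq_zero.mp h2).resolve_right (inv_ne_zero (hne κ))

/-- Shifted tuples. -/
theorem exists_tuple_shift [IsAlgClosed F] {s d M : ℕ} (t : Fin s → Ω) (ht : Ind F d t) (r : ℕ)
    (l : Fin r → Fin M → Ω) (hl : ∀ j, LinearIndependent F (l j))
    (hM : ∀ j < r, (s + j + d).choose d < M) (y : Fin r → Ω) :
    ∃ c : Fin r → Fin M → F,
      Ind F d (Fin.append t (fun j => y j + ∑ i, c j i • l j i) : Fin (s + r) → Ω) := by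
  classical
  obtain ⟨c, hc⟩ := exists_tuple t ht r l hl hM
  let v : Fin r → MvPolynomial (Fin r ⊕ (Fin r × Fin M)) Ω := fun j =>
    X (Sum.inl j) * C (y j) + ∑ i, X (Sum.inr (j, i)) * C (l j i)
  have hv : ∀ j, (v j).totalDegree ≤ 1 := by
    intro j
    refine (totalDegree_add _ _).trans (max_le ?_ ?_)
    · refine (totalDegree_mul _ _).trans ?_
      rw [totalDegree_X, totalDegree_C]
    · refine totalDegree_finsetSum_le fun i _ => ?_
      refine (totalDegree_mul _ _).trans ?_
      rw [totalDegree_X, totalDegree_C]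
  have hev : ∀ (x : Fin r ⊕ (Fin r × Fin M) → F) (j : Fin r),
      eval (fun i => algebraMap F Ω (x i)) (v j) =
        x (Sum.inl j) • y j + ∑ i, x (Sum.inr (j, i)) • l j i := by
    intro x j
    simp only [v, map_add, map_mul, eval_X, eval_C, map_sum, Algebra.smul_def]
  let c₀ : Fin r ⊕ (Fin r × Fin M) → F := Sum.elim (fun _ => 0) (fun p => c p.1 p.2)
  obtain ⟨G, hG0, -, hG⟩ := exists_poly (F := F) (fam d t v) d (fam_deg t v hv) c₀ (by
    rw [ind_iff] at hc
    unfold LI at hc
    convert hc using 2 with κ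
    rw [eval_fam]
    refine Finset.prod_congr rfl fun i _ => ?_
    congr 2
    funext j
    rw [hev]
    simp [c₀])
  have hGne : G * ∏ j : Fin r, X (Sum.inl j) ≠ 0 := by
    apply mul_ne_zero
    · intro h
      rw [h, map_zero] at hG0
      exact hG0 rfl
    · exact Finset.prod_ne_zero_iff.mpr fun j _ => X_ne_zero _
  obtain ⟨x, hx⟩ : ∃ x : Fin r ⊕ (Fin r × Fin M) → F, eval x (G * ∏ j : Fin r, X (Sum.inl j)) ≠ 0 := by
    by_contra hcon
    push Not at hcon
    exact hGne (MvPolynomial.funext fun x => by rw [hcon x, map_zero])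
  rw [map_mul, map_prod] at hx
  have hx1 := left_ne_zero_of_mul hx
  have hx2 : ∀ j, x (Sum.inl j) ≠ 0 := by
    intro j
    have := Finset.prod_ne_zero_iff.mp (right_ne_zero_of_mul hx) j (Finset.mem_univ j)
    rwa [eval_X] at this
  have h3 := hG x hx1
  refine ⟨fun j i => (x (Sum.inl j))⁻¹ * x (Sum.inr (j, i)), ?_⟩
  rw [ind_iff]
  apply li_scale _ (Fin.append (fun _ => 1) (fun j => x (Sum.inl j)) : Fin (s + r) → F)
  · intro i
    refine Fin.addCases (fun a => ?_) (fun b => ?_) i
    · rw [Fin.append_left]; exact one_ne_zero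
    · rw [Fin.append_right]; exact hx2 b
  · unfold LI
    convert h3 using 2 with κ
    rw [eval_fam]
    refine Finset.prod_congr rfl fun i _ => ?_
    congr 1
    refine Fin.addCases (fun a => ?_) (fun b => ?_) i
    · simp only [Fin.append_left]
      rw [one_smul]
    · simp only [Fin.append_right]
      rw [hev, smul_add, Finset.smul_sum]
      congr 1
      refine Finset.sum_congr rfl fun i _ => ?_
      rw [smul_smul, mul_inv_cancel_left₀ (hx2 b)]

/-- The polynomial. -/
theorem exists_poly_tuple [IsAlgClosed F] {s d M : ℕ} (t : Fin s → Ω) (ht : Ind F d t) (r : ℕ)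
    (l : Fin r → Fin M → Ω) (hl : ∀ j, LinearIndependent F (l j))
    (hM : ∀ j < r, (s + j + d).choose d < M) (y : Fin r → Ω) :
    ∃ G : MvPolynomial (Fin r × Fin M) F, G ≠ 0 ∧ G.totalDegree ≤ (s + r + d).choose d * d ∧
      ∀ c : Fin r × Fin M → F, eval c G ≠ 0 →
        Ind F d (Fin.append t (fun j => y j + ∑ i, c (j, i) • l j i) : Fin (s + r) → Ω) := by
  classical
  obtain ⟨c, hc⟩ := exists_tuple_shift t ht r l hl hM y
  let v : Fin r → MvPolynomial (Fin r × Fin M) Ω := fun j =>
    C (y j) + ∑ i, X (j, i) * C (l j i)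
  have hv : ∀ j, (v j).totalDegree ≤ 1 := by
    intro j
    refine (totalDegree_add _ _).trans (max_le ?_ ?_)
    · rw [totalDegree_C]; exact Nat.zero_le _
    · refine totalDegree_finsetSum_le fun i _ => ?_
      refine (totalDegree_mul _ _).trans ?_
      rw [totalDegree_X, totalDegree_C]
  have hev : ∀ (x : Fin r × Fin M → F) (j : Fin r),
      eval (fun i => algebraMap F Ω (x i)) (v j) = y j + ∑ i, x (j, i) • l j i := by
    intro x j
    simp only [v, map_add, map_mul, eval_X, eval_C, map_sum, Algebra.smul_def]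
  obtain ⟨G, hG0, hGd, hG⟩ := exists_poly (F := F) (fam d t v) d (fam_deg t v hv)
    (fun p => c p.1 p.2) (by
    rw [ind_iff] at hc
    unfold LI at hc
    convert hc using 2 with κ
    rw [eval_fam]
    refine Finset.prod_congr rfl fun i _ => ?_
    congr 2
    funext j
    rw [hev])
  refine ⟨G, ?_, ?_, ?_⟩
  · intro h
    rw [h, map_zero] at hG0
    exact hG0 rfl
  · rw [card_ex] at hGd
    exact hGd
  · intro x hx
    rw [ind_iff]
    have := hG x hx
    unfold LI
    convert this using 2 with κ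
    rw [eval_fam]
    refine Finset.prod_congr rfl fun i _ => ?_
    congr 2
    funext j
    rw [hev]

/-- The count. -/
theorem count [IsAlgClosed F] [CharZero F] {s d M : ℕ} (t : Fin s → Ω) (ht : Ind F d t) (r : ℕ)
    (l : Fin r → Fin M → Ω) (hl : ∀ j, LinearIndependent F (l j))
    (hM : ∀ j < r, (s + j + d).choose d < M) (y : Fin r → Ω) (S : Finset ℤ) :
    S.card * {k : Fin r → Fin M → ℤ | (∀ j i, k j i ∈ S) ∧
      ¬ Ind F d (Fin.append t (fun j => y j + ∑ i, (k j i : F) • l j i) :
        Fin (s + r) → Ω)}.ncard ≤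
      (s + r + d).choose d * d * S.card ^ (r * M) := by
  classical
  obtain ⟨G, hG0, hGd, hG⟩ := exists_poly_tuple t ht r l hl hM y
  let e : Fin r × Fin M ≃ Fin (r * M) := finProdFinEquiv
  have hG' : rename e G ≠ 0 := by
    intro h
    exact hG0 (rename_injective e e.injective (by rw [h, map_zero]))
  let S' : Finset F := S.image (fun n : ℤ => (n : F))
  have hS' : S'.card = S.card := Finset.card_image_of_injective _ Int.cast_injective
  have hsz := schwartz_zippel_totalDegree hG' S'
  set Z := {f ∈ Fintype.piFinset fun _ : Fin (r * M) => S' | eval f (rename e G) = 0} with hZ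
  have hle : {k : Fin r → Fin M → ℤ | (∀ j i, k j i ∈ S) ∧
      ¬ Ind F d (Fin.append t (fun j => y j + ∑ i, (k j i : F) • l j i) :
        Fin (s + r) → Ω)}.ncard ≤ Z.card := by
    rw [← Set.ncard_coe_finset Z]
    refine Set.ncard_le_ncard_of_injOn (fun k a => ((k (e.symm a).1 (e.symm a).2 : ℤ) : F)) ?_ ?_
      (Finset.finite_toSet _)
    · rintro k ⟨hk1, hk2⟩
      rw [Finset.mem_coe, hZ, Finset.mem_filter, Fintype.mem_piFinset]
      refine ⟨fun a => Finset.mem_image_of_mem _ (hk1 _ _), ?_⟩
      by_contra hne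
      apply hk2
      rw [eval_rename] at hne
      have := hG _ hne
      simpa using this
    · intro k _ k' _ h
      funext j i
      have := congrFun h (e (j, i))
      simp only [Equiv.symm_apply_apply] at this
      exact_mod_cast this
  rcases Nat.eq_zero_or_pos S.card with h0 | h0
  · rw [h0]
    simp
  · refine (Nat.mul_le_mul_left _ hle).trans ?_
    have hpos : (0 : ℚ≥0) < S.card := by exact_mod_cast h0
    rw [hS'] at hsz
    rw [div_le_div_iff₀ (by positivity) hpos] at hsz
    have h1 : Z.card * S.card ≤ (rename e G).totalDegree * S.card ^ (r * M) := by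
      exact_mod_cast hsz
    rw [mul_comm S.card]
    refine h1.trans (Nat.mul_le_mul_right _ ?_)
    exact (totalDegree_rename_le _ _).trans hGd

end

end Pool.Agent.Lib.MP_c50dba_nt.LR
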