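import Pool.Agent.Lib.MP_c50dba_nt.LR.Rel

set_option autoImplicit false

/-!
The elements of a finite dimensional space with a relation of bounded degree lie in finitely many
subspaces of bounded dimension.
-/

namespace Pool.Agent.Lib.MP_c50dba_nt.LR

open MvPolynomial

/-- A space all of whose elements satisfy a relation of degree at most `D` is small. -/
theorem finrank_le_of_dep {F Ω : Type} [Field F] [IsAlgClosed F] [Field Ω] [Algebra F Ω] {s : ℕ}
    {t : Fin s → Ω} {D : ℕ} (ht : Ind F D t) (V : Submodule F Ω) [FiniteDimensional F V]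
    (h : ∀ x ∈ V, ¬ Ind F D (Fin.cons x t : Fin (s + 1) → Ω)) :
    Module.finrank F V ≤ (s + D).choose D := by
  by_contra hlt
  push Not at hlt
  let b := Module.finBasis F V
  have hli : LinearIndependent F (fun i => (b i : Ω)) :=
    b.linearIndependent.map' V.subtype (Submodule.ker_subtype V)
  obtain ⟨c, hc⟩ := exists_ind t ht (fun i => (b i : Ω)) hli hlt
  exact h _ (V.sum_mem fun i _ => V.smul_mem _ (b i).2) hc

section

variable {F Ω : Type} [Field F] [Field Ω] [Algebra F Ω] {s : ℕ}
  {K : Type} [Field K] [Algebra (MvPolynomial (Fin s) F) K]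
  [IsFractionRing (MvPolynomial (Fin s) F) K] [Algebra (MvPolynomial (Fin s) F) Ω] [Algebra K Ω]
  [IsScalarTower (MvPolynomial (Fin s) F) K Ω] [IsScalarTower F (MvPolynomial (Fin s) F) Ω]

/-- The elements with an integral multiple. -/
def Wsp (c : MvPolynomial (Fin s) F) : Submodule F Ω where
  carrier := {u | IsIntegral (MvPolynomial (Fin s) F) (c • u)}
  add_mem' := by
    intro u v hu hv
    rw [Set.mem_ofPred_eq] at hu hv ⊢
    rw [smul_add]
    exact hu.add hv
  zero_mem' := by
    rw [Set.mem_ofPred_eq, smul_zero]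
    exact isIntegral_zero
  smul_mem' := by
    intro f u hu
    rw [Set.mem_ofPred_eq] at hu ⊢
    have h1 : c • f • u = (algebraMap F (MvPolynomial (Fin s) F) f) • (c • u) := by
      rw [← algebraMap_smul (MvPolynomial (Fin s) F) f u, smul_comm]
    rw [h1]
    exact hu.smul _

/-- The elements with an integral multiple at infinity. -/
def Winf (x : K) : Submodule F Ω where
  carrier := {u | IsIntegral (Oinf F s K) (x • u)}
  add_mem' := by
    intro u v hu hv
    rw [Set.mem_ofPred_eq] at hu hv ⊢
    rw [smul_add]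
    exact hu.add hv
  zero_mem' := by
    rw [Set.mem_ofPred_eq, smul_zero]
    exact isIntegral_zero
  smul_mem' := by
    intro f u hu
    rw [Set.mem_ofPred_eq] at hu ⊢
    have h1 : x • f • u = (⟨algebraMap _ K (C f), C_mem_Oinf f⟩ : Oinf F s K) • (x • u) := by
      have h2 : f • u = (algebraMap (MvPolynomial (Fin s) F) K (C f)) • u := by
        rw [algebraMap_smul, ← algebraMap_smul (MvPolynomial (Fin s) F) f u]
        rfl
      rw [h2, smul_comm]
      rfl
    rw [h1]
    exact hu.smul _

/-- The elements of an intermediate field. -/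
def Esp (E : IntermediateField K Ω) : Submodule F Ω where
  carrier := {u | u ∈ E}
  add_mem' := fun hu hv => E.add_mem hu hv
  zero_mem' := E.zero_mem
  smul_mem' := by
    intro f u hu
    rw [Set.mem_ofPred_eq] at hu ⊢
    have h2 : f • u = (algebraMap (MvPolynomial (Fin s) F) K (C f)) • u := by
      rw [algebraMap_smul, ← algebraMap_smul (MvPolynomial (Fin s) F) f u]
      rfl
    rw [h2]
    exact E.smul_mem hu

/-- The elements which are algebraic over `K`. -/
def Asp : Submodule F Ω where
  carrier := {u | IsAlgebraic K u}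
  add_mem' := fun hu hv => IsAlgebraic.add hu hv
  zero_mem' := isAlgebraic_zero
  smul_mem' := by
    intro f u hu
    rw [Set.mem_ofPred_eq] at hu ⊢
    have h2 : f • u = (algebraMap (MvPolynomial (Fin s) F) K (C f)) • u := by
      rw [algebraMap_smul, ← algebraMap_smul (MvPolynomial (Fin s) F) f u]
      rfl
    rw [h2]
    exact hu.smul _

theorem le_of_basis {F Ω : Type} [Field F] [Field Ω] [Algebra F Ω] {U W : Submodule F Ω}
    {ι : Type} (b : Module.Basis ι F U) (h : ∀ i, (b i : Ω) ∈ W) : U ≤ W := by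
  have h1 : (⊤ : Submodule F U) ≤ W.comap U.subtype := by
    rw [← b.span_eq, Submodule.span_le]
    rintro _ ⟨i, rfl⟩
    exact h i
  exact fun u hu => h1 (x := ⟨u, hu⟩) trivial

omit [IsFractionRing (MvPolynomial (Fin s) F) K] in
theorem mem_Asp {u : Ω} : u ∈ Asp (F := F) (s := s) (K := K) ↔ IsAlgebraic K u := Iff.rfl

theorem mem_Wsp {c : MvPolynomial (Fin s) F} {u : Ω} :
    u ∈ Wsp c ↔ IsIntegral (MvPolynomial (Fin s) F) (c • u) := Iff.rfl

/-- A common denominator. -/
theorem exists_denominator (U : Submodule F Ω) [FiniteDimensional F U]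
    (hU : ∀ u ∈ U, IsAlgebraic K u) :
    ∃ D₀ : MvPolynomial (Fin s) F, D₀ ≠ 0 ∧
      ∀ u ∈ U, IsIntegral (MvPolynomial (Fin s) F) (D₀ • u) := by
  classical
  let b := Module.finBasis F U
  have h1 : ∀ i, ∃ y : MvPolynomial (Fin s) F, y ≠ 0 ∧
      IsIntegral (MvPolynomial (Fin s) F) (y • (b i : Ω)) := by
    intro i
    have h2 : IsAlgebraic (MvPolynomial (Fin s) F) (b i : Ω) :=
      (IsFractionRing.isAlgebraic_iff (MvPolynomial (Fin s) F) K Ω).mpr (hU _ (b i).2)
    obtain ⟨y, hy, hy2⟩ := h2.exists_integral_multiple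
    exact ⟨y, hy, hy2⟩
  choose y hy0 hy using h1
  refine ⟨∏ i, y i, Finset.prod_ne_zero_iff.mpr fun i _ => hy0 i, ?_⟩
  have h3 : U ≤ Wsp (∏ i, y i) := by
    refine le_of_basis b fun i => ?_
    rw [mem_Wsp, ← Finset.prod_erase_mul _ _ (Finset.mem_univ i), mul_smul]
    exact (hy i).smul _
  exact fun u hu => h3 hu

omit [IsFractionRing (MvPolynomial (Fin s) F) K] in
variable (s) in
include s in
/-- Finitely many fields. -/
theorem finite_fields [CharZero F] (U : Submodule F Ω) [FiniteDimensional F U]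
    (hU : ∀ u ∈ U, IsAlgebraic K u) :
    {E : IntermediateField K Ω | ∃ u ∈ U, E = IntermediateField.adjoin K {u}}.Finite := by
  classical
  let b := Module.finBasis F U
  let S : Set Ω := Set.range fun i => (b i : Ω)
  let E := IntermediateField.adjoin K S
  have hfin : FiniteDimensional K E := by
    have : Finite S := Set.finite_range _
    apply IntermediateField.finiteDimensional_adjoin
    rintro _ ⟨i, rfl⟩
    exact (hU _ (b i).2).isIntegral
  have hUE : ∀ u ∈ U, u ∈ E := by
    have h7 : U ≤ Esp (F := F) (s := s) E := by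
      refine le_of_basis b fun i => ?_
      exact IntermediateField.subset_adjoin K S ⟨i, rfl⟩
    exact fun u hu => h7 hu
  have hchar : CharZero K := by
    have h1 : Function.Injective ((algebraMap (MvPolynomial (Fin s) F) K).comp C) :=
      RingHom.injective _
    exact charZero_of_injective_ringHom h1
  have hfin2 : Finite (IntermediateField K E) :=
    Field.finite_intermediateField_of_exists_primitive_element K E
      (Field.exists_primitive_element K E)
  refine (Set.finite_range (IntermediateField.lift : IntermediateField K E →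
    IntermediateField K Ω)).subset ?_
  rintro _ ⟨u, hu, rfl⟩
  exact ⟨IntermediateField.adjoin K {(⟨u, hUE u hu⟩ : E)},
    IntermediateField.lift_adjoin_simple (F := K) E _⟩

variable (K) in
include K in
/-- The family of subspaces. -/
theorem exc_family_aux [IsAlgClosed F] [CharZero F] {t : Fin s → Ω}
    (ht : ∀ P : MvPolynomial (Fin s) F, algebraMap (MvPolynomial (Fin s) F) Ω P = aeval t P)
    {T : MvPolynomial (Fin s) F} (hT : T.totalDegree = 1)
    (U : Submodule F Ω) [FiniteDimensional F U] (d : ℕ) :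
    ∃ 𝒱 : Set (Submodule F Ω), 𝒱.Finite ∧
      (∀ V ∈ 𝒱, V ≤ U ∧
        Module.finrank F V ≤ (s + (d + 1) ^ 2 / 4).choose ((d + 1) ^ 2 / 4)) ∧
      ∀ x ∈ U, ¬ Ind F d (Fin.cons x t : Fin (s + 1) → Ω) → ∃ V ∈ 𝒱, x ∈ V := by
  classical
  have hInd : ∀ D, Ind F D t := by
    intro D P _ hP
    rw [← ht, IsScalarTower.algebraMap_apply (MvPolynomial (Fin s) F) K Ω,
      FaithfulSMul.algebraMap_eq_zero_iff, FaithfulSMul.algebraMap_eq_zero_iff] at hP
    exact hP
  set D := (d + 1) ^ 2 / 4 with hD
  let Ua : Submodule F Ω := U ⊓ Asp (F := F) (s := s) (K := K)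
  have hfinUa : FiniteDimensional F Ua := Submodule.finiteDimensional_of_le inf_le_left
  have hUa : ∀ u ∈ Ua, IsAlgebraic K u := fun u hu => hu.2
  obtain ⟨D₀, hD₀, hint⟩ := exists_denominator (s := s) (K := K) Ua hUa
  have hfields := finite_fields s Ua hUa
  set ℰ := {E : IntermediateField K Ω | ∃ u ∈ Ua, E = IntermediateField.adjoin K {u}} with hℰ
  have hdiv : {a : Associates (MvPolynomial (Fin s) F) | a ∣ Associates.mk D₀}.Finite := by
    have h1 : Associates.mk D₀ ≠ 0 := Associates.mk_ne_zero.mpr hD₀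
    have := UniqueFactorizationMonoid.fintypeSubtypeDvd (Associates.mk D₀) h1
    exact Set.finite_coe_iff.mp (@Finite.of_fintype _ this)
  let Vf : IntermediateField K Ω → Associates (MvPolynomial (Fin s) F) → ℕ → Submodule F Ω :=
    fun E a m => U ⊓ (Esp (F := F) (s := s) E ⊓ (Wsp (Quotient.out a) ⊓
      Winf (F := F) (s := s) ((algebraMap (MvPolynomial (Fin s) F) K T)⁻¹ ^ m)))
  let 𝒱 : Set (Submodule F Ω) := {V | ∃ E ∈ ℰ, ∃ a, a ∣ Associates.mk D₀ ∧ ∃ m, 1 ≤ m ∧ m ≤ d + 1 ∧
    Module.finrank K E * ((Quotient.out a : MvPolynomial (Fin s) F).totalDegree + m) ≤ D ∧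
    V = Vf E a m}
  refine ⟨𝒱, ?_, ?_, ?_⟩
  · have h1 : (ℰ ×ˢ ({a | a ∣ Associates.mk D₀} ×ˢ Set.Iic (d + 1))).Finite :=
      hfields.prod (hdiv.prod (Set.finite_Iic _))
    refine (h1.image (fun p => Vf p.1 p.2.1 p.2.2)).subset ?_
    rintro V ⟨E, hE, a, ha, m, hm1, hm2, -, rfl⟩
    exact ⟨(E, a, m), ⟨hE, ha, hm2⟩, rfl⟩
  · rintro V ⟨E, hE, a, ha, m, hm1, hm2, hdeg, rfl⟩
    have hle : Vf E a m ≤ U := inf_le_left
    have hfinV : FiniteDimensional F (Vf E a m) := Submodule.finiteDimensional_of_le hle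
    refine ⟨hle, ?_⟩
    apply finrank_le_of_dep (hInd D)
    rintro x ⟨-, hx1, hx2, hx3⟩
    obtain ⟨u, hu, rfl⟩ := hE
    have hfinE : FiniteDimensional K (IntermediateField.adjoin K {u}) :=
      IntermediateField.adjoin.finiteDimensional (hUa u hu).isIntegral
    have hc0 : (Quotient.out a : MvPolynomial (Fin s) F) ≠ 0 := by
      intro h0
      have h1 : Associates.mk (Quotient.out a : MvPolynomial (Fin s) F) = a :=
        Associates.quot_out a
      rw [h0] at h1
      rw [← h1, Associates.mk_dvd_mk] at ha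
      exact hD₀ (zero_dvd_iff.mp ha)
    refine not_ind_of_integral ht hT hc0 hm1 hx2 hx3 (le_trans (Nat.mul_le_mul_right _ ?_) hdeg)
    have h2 : minpoly K x = minpoly K (⟨x, hx1⟩ : IntermediateField.adjoin K {u}) :=
      (minpoly.algebraMap_eq (algebraMap (IntermediateField.adjoin K {u}) Ω).injective
        (⟨x, hx1⟩ : IntermediateField.adjoin K {u}))
    rw [h2]
    exact minpoly.natDegree_le _
  · intro x hx hdep
    have hxa : IsAlgebraic K x := by
      obtain ⟨P, hP, h0, -⟩ := exists_pol ht hdep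
      have hinj := FaithfulSMul.algebraMap_injective (MvPolynomial (Fin s) F) K
      exact ⟨P.map (algebraMap (MvPolynomial (Fin s) F) K), (Polynomial.map_ne_zero_iff hinj).mpr hP,
        by rw [Polynomial.aeval_map_algebraMap, h0]⟩
    have hxU : x ∈ Ua := ⟨hx, hxa⟩
    obtain ⟨e, c, m, hc, hm, he, hsum, hc1, hc2⟩ :=
      denominators (K := K) ht hT hdep hD₀ (hint x hxU)
    have hass : Associated (Quotient.out (Associates.mk c) : MvPolynomial (Fin s) F) c :=
      Associates.mk_eq_mk_iff_associated.mp (Associates.quot_out _)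
    have hc0 : c ≠ 0 := by
      rintro rfl
      exact hD₀ (zero_dvd_iff.mp hc)
    obtain ⟨w, hw⟩ := hass
    have hdegc : (Quotient.out (Associates.mk c) : MvPolynomial (Fin s) F).totalDegree ≤
        c.totalDegree := by
      have h1 : (Quotient.out (Associates.mk c) : MvPolynomial (Fin s) F) ≠ 0 := by
        intro h0
        rw [h0, zero_mul] at hw
        exact hc0 hw.symm
      conv_rhs => rw [← hw, totalDegree_mul_of_isDomain h1 w.ne_zero]
      exact Nat.le_add_right _ _
    refine ⟨Vf (IntermediateField.adjoin K {x}) (Associates.mk c) m, ?_, ?_⟩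
    · refine ⟨_, ⟨x, hxU, rfl⟩, Associates.mk c, Associates.mk_dvd_mk.mpr hc, m, hm, by omega, ?_,
        rfl⟩
      rw [IntermediateField.adjoin.finrank hxa.isIntegral, hD, Nat.le_div_iff_mul_le (by norm_num)]
      have h2 : (minpoly K x).natDegree *
          ((Quotient.out (Associates.mk c) : MvPolynomial (Fin s) F).totalDegree + m) ≤
          e * (c.totalDegree + m) := Nat.mul_le_mul he (by omega)
      have h3 : e * (c.totalDegree + m) * 4 ≤ (e + (c.totalDegree + m)) ^ 2 := by
        have := sq_nonneg ((e : ℤ) - ((c.totalDegree + m : ℕ) : ℤ))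
        zify
        push_cast at this ⊢
        nlinarith
      have h4 : (e + (c.totalDegree + m)) ^ 2 ≤ (d + 1) ^ 2 := Nat.pow_le_pow_left (by omega) 2
      calc _ ≤ e * (c.totalDegree + m) * 4 := Nat.mul_le_mul_right _ h2
        _ ≤ _ := h3.trans h4
    · refine ⟨hx, IntermediateField.mem_adjoin_simple_self K x, ?_, hc2⟩
      have h5 : (Quotient.out (Associates.mk c) : MvPolynomial (Fin s) F) =
          (↑w⁻¹ : MvPolynomial (Fin s) F) * c := by
        rw [mul_comm, Units.eq_mul_inv_iff_mul_eq]
        exact hw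
      rw [SetLike.mem_coe, mem_Wsp, h5, mul_smul]
      exact hc1.smul _

end

end Pool.Agent.Lib.MP_c50dba_nt.LR
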