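import Pool.Agent.Lib.MP_c50dba_nt.LR.Basic

set_option autoImplicit false

/-!
Families of vectors depending polynomially on parameters: independence at one point gives a
nonzero polynomial whose nonvanishing gives independence.
-/

namespace Pool.Agent.Lib.MP_c50dba_nt.LR

open MvPolynomial

section

variable {F Ω : Type} [Field F] [Field Ω] [Algebra F Ω]

/-- The exponents of total degree at most `d`. -/
abbrev Ex (n d : ℕ) : Type := {κ : Fin n → ℕ // ∑ i, κ i ≤ d}

noncomputable def exEquiv (n d : ℕ) :
    ({κ : Fin n →₀ ℕ | (κ.sum fun _ e => e) ≤ d} : Set (Fin n →₀ ℕ)) ≃ Ex n d where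
  toFun κ := ⟨κ.1, by
    have h : (κ.1.sum fun _ e => e) ≤ d := κ.2
    rwa [Finsupp.sum_fintype _ _ (fun _ => rfl)] at h⟩
  invFun κ := ⟨Finsupp.equivFunOnFinite.symm κ.1, by
    show (Finsupp.sum _ fun _ e => e) ≤ d
    rw [Finsupp.sum_fintype _ _ (fun _ => rfl)]
    exact κ.2⟩
  left_inv κ := by
    apply Subtype.ext
    ext i
    simp
  right_inv κ := by
    apply Subtype.ext
    funext i
    simp

noncomputable instance (n d : ℕ) : Fintype (Ex n d) :=
  Fintype.ofEquiv {κ : Fin n → Fin (d + 1) // ∑ i, (κ i : ℕ) ≤ d}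
    { toFun := fun κ => ⟨fun i => κ.1 i, κ.2⟩
      invFun := fun κ => ⟨fun i => ⟨κ.1 i, by
        have h1 := κ.2
        have h2 : κ.1 i ≤ ∑ i, κ.1 i := Finset.single_le_sum (fun _ _ => Nat.zero_le _)
          (Finset.mem_univ i)
        omega⟩, κ.2⟩
      left_inv := fun κ => rfl
      right_inv := fun κ => rfl }

theorem card_ex (n d : ℕ) : Fintype.card (Ex n d) = (n + d).choose d := by
  have h : Module.finrank ℚ (restrictTotalDegree (Fin n) ℚ d) =
      Nat.card ({κ : Fin n →₀ ℕ | (κ.sum fun _ e => e) ≤ d} : Set (Fin n →₀ ℕ)) :=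
    Module.finrank_eq_nat_card_basis
      (basisRestrictSupport ℚ {κ : Fin n →₀ ℕ | (κ.sum fun _ e => e) ≤ d})
  rw [← finrank_restrict ℚ n d, h, Nat.card_congr (exEquiv n d), Nat.card_eq_fintype_card]

/-- The monomials of degree at most `d` are linearly independent over `F`. -/
def LI (F : Type) {Ω : Type} [Field F] [Field Ω] [Algebra F Ω] {n : ℕ} (d : ℕ) (u : Fin n → Ω) :
    Prop :=
  LinearIndependent F (fun κ : Ex n d => ∏ i, u i ^ (κ.1 i))

theorem ind_iff {n d : ℕ} (u : Fin n → Ω) : Ind F d u ↔ LI F d u := by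
  classical
  constructor
  · intro h
    unfold LI
    rw [Fintype.linearIndependent_iff]
    intro g hg κ
    let P : MvPolynomial (Fin n) F :=
      ∑ κ : Ex n d, monomial (Finsupp.equivFunOnFinite.symm κ.1) (g κ)
    have h1 : aeval u P = 0 := by
      rw [← hg]
      simp only [P, map_sum, aeval_monomial]
      refine Finset.sum_congr rfl fun κ _ => ?_
      rw [Finsupp.prod_fintype _ _ (fun _ => pow_zero _), Algebra.smul_def]
      rfl
    have h2 : P.totalDegree ≤ d := by
      refine totalDegree_finsetSum_le fun κ _ => ?_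
      refine (totalDegree_monomial_le _ _).trans ?_
      rw [Finsupp.sum_fintype _ _ (fun _ => rfl)]
      exact κ.2
    have h3 := congrArg (coeff (Finsupp.equivFunOnFinite.symm κ.1)) (h P h2 h1)
    rw [coeff_sum, Finset.sum_eq_single κ] at h3
    · rwa [coeff_monomial, if_pos rfl, coeff_zero] at h3
    · intro κ' _ hne
      rw [coeff_monomial, if_neg]
      intro heq
      apply hne
      apply Subtype.ext
      exact Finsupp.equivFunOnFinite.symm.injective heq
    · intro h4
      exact absurd (Finset.mem_univ κ) h4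
  · intro h P hP h0
    unfold LI at h
    rw [Fintype.linearIndependent_iff] at h
    have hPs : P = ∑ κ : Ex n d, monomial (Finsupp.equivFunOnFinite.symm κ.1)
        (coeff (Finsupp.equivFunOnFinite.symm κ.1) P) := by
      ext m
      rw [coeff_sum]
      by_cases hm : ∑ i, m i ≤ d
      · rw [Finset.sum_eq_single (⟨m, hm⟩ : Ex n d)]
        · rw [coeff_monomial, if_pos]
          · rw [show Finsupp.equivFunOnFinite.symm (⟨m, hm⟩ : Ex n d).1 = m from
              Finsupp.equivFunOnFinite.symm_apply_apply m]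
          · exact Finsupp.equivFunOnFinite.symm_apply_apply m
        · intro κ' _ hne
          rw [coeff_monomial, if_neg]
          intro heq
          apply hne
          apply Subtype.ext
          have := congrArg Finsupp.equivFunOnFinite heq
          rwa [Equiv.apply_symm_apply] at this
        · intro h4
          exact absurd (Finset.mem_univ _) h4
      · rw [Finset.sum_eq_zero]
        · by_contra hne
          have h2 := le_totalDegree (mem_support_iff.mpr hne)
          rw [Finsupp.sum_fintype _ _ (fun _ => rfl)] at h2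
          omega
        · intro κ' _
          rw [coeff_monomial, if_neg]
          intro heq
          apply hm
          have := κ'.2
          rw [← heq]
          simpa using this
    have h1 : ∑ κ : Ex n d, (coeff (Finsupp.equivFunOnFinite.symm κ.1) P) • ∏ i, u i ^ (κ.1 i)
        = 0 := by
      rw [hPs] at h0
      rw [← h0, map_sum]
      refine Finset.sum_congr rfl fun κ _ => ?_
      rw [aeval_monomial, Finsupp.prod_fintype _ _ (fun _ => pow_zero _), Algebra.smul_def]
      rfl
    ext κ
    rw [coeff_zero]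
    by_cases hκ : ∑ i, κ i ≤ d
    · have := h _ h1 ⟨κ, hκ⟩
      rwa [show Finsupp.equivFunOnFinite.symm (⟨κ, hκ⟩ : Ex n d).1 = κ from
        Finsupp.equivFunOnFinite.symm_apply_apply κ] at this
    · by_contra hne
      have h2 := le_totalDegree (mem_support_iff.mpr hne)
      rw [Finsupp.sum_fintype _ _ (fun _ => rfl)] at h2
      omega

/-- Apply a linear form to the coefficients. -/
noncomputable def lf {σ : Type} (θ : Ω →ₗ[F] F) (p : MvPolynomial σ Ω) : MvPolynomial σ F :=
  ∑ m ∈ p.support, monomial m (θ (coeff m p))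

theorem eval_lf {σ : Type} [Fintype σ] (θ : Ω →ₗ[F] F) (p : MvPolynomial σ Ω) (c : σ → F) :
    eval c (lf θ p) = θ (eval (fun i => algebraMap F Ω (c i)) p) := by
  unfold lf
  rw [map_sum, eval_eq', map_sum]
  refine Finset.sum_congr rfl fun m _ => ?_
  rw [eval_monomial, Finsupp.prod_fintype _ _ (fun _ => pow_zero _)]
  rw [show (∏ i, (algebraMap F Ω (c i)) ^ m i) = algebraMap F Ω (∏ i, c i ^ m i) by
    rw [map_prod]; simp only [map_pow]]
  rw [mul_comm (coeff m p), ← Algebra.smul_def, map_smul, smul_eq_mul, mul_comm]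

theorem totalDegree_lf {σ : Type} (θ : Ω →ₗ[F] F) (p : MvPolynomial σ Ω) :
    (lf θ p).totalDegree ≤ p.totalDegree := by
  unfold lf
  refine totalDegree_finsetSum_le fun m hm => ?_
  exact (totalDegree_monomial_le _ _).trans (le_totalDegree hm)

theorem exists_dual {ι : Type} [Fintype ι] [DecidableEq ι] (u : ι → Ω)
    (hu : LinearIndependent F u) :
    ∃ θ : ι → Ω →ₗ[F] F, ∀ i j, θ i (u j) = if i = j then 1 else 0 := by
  have h : ∀ i, ∃ θ : Ω →ₗ[F] F, ∀ j, θ (u j) = if i = j then 1 else 0 := by
    intro i
    obtain ⟨θ, hθ⟩ := LinearMap.exists_extend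
      ((Finsupp.lapply i : (ι →₀ F) →ₗ[F] F).comp hu.repr)
    refine ⟨θ, fun j => ?_⟩
    have h1 := LinearMap.congr_fun hθ ⟨u j, Submodule.subset_span ⟨j, rfl⟩⟩
    have h2 : hu.repr ⟨u j, Submodule.subset_span ⟨j, rfl⟩⟩ = Finsupp.single j 1 :=
      hu.repr_eq_single j _ rfl
    rw [LinearMap.comp_apply, LinearMap.comp_apply, h2] at h1
    rw [Submodule.subtype_apply] at h1
    rw [h1, Finsupp.lapply_apply, Finsupp.single_apply]
    simp only [eq_comm]
  choose θ hθ using h
  exact ⟨θ, hθ⟩

/-- Independence at one point gives independence outside the zeros of a polynomial. -/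
theorem exists_poly {ι σ : Type} [Fintype ι] [Fintype σ] (g : ι → MvPolynomial σ Ω) (δ : ℕ)
    (hg : ∀ b, (g b).totalDegree ≤ δ) (c₀ : σ → F)
    (h0 : LinearIndependent F (fun b => eval (fun i => algebraMap F Ω (c₀ i)) (g b))) :
    ∃ G : MvPolynomial σ F, eval c₀ G ≠ 0 ∧ G.totalDegree ≤ Fintype.card ι * δ ∧
      ∀ c : σ → F, eval c G ≠ 0 →
        LinearIndependent F (fun b => eval (fun i => algebraMap F Ω (c i)) (g b)) := by
  classical
  obtain ⟨θ, hθ⟩ := exists_dual _ h0
  let A : Matrix ι ι (MvPolynomial σ F) := Matrix.of fun b b' => lf (θ b) (g b')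
  have hev : ∀ c : σ → F, eval c A.det =
      (Matrix.of fun b b' => θ b (eval (fun i => algebraMap F Ω (c i)) (g b'))).det := by
    intro c
    rw [RingHom.map_det]
    congr 1
    ext b b'
    simp only [RingHom.mapMatrix_apply, Matrix.map_apply, A, Matrix.of_apply]
    exact eval_lf _ _ _
  refine ⟨A.det, ?_, ?_, ?_⟩
  · rw [hev]
    have : (Matrix.of fun b b' => θ b (eval (fun i => algebraMap F Ω (c₀ i)) (g b'))) =
        (1 : Matrix ι ι F) := by
      ext b b'
      rw [Matrix.of_apply, hθ, Matrix.one_apply]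
    rw [this, Matrix.det_one]
    exact one_ne_zero
  · rw [Matrix.det_apply]
    refine totalDegree_finsetSum_le fun π _ => ?_
    have h1 : (Equiv.Perm.sign π • ∏ i, A (π i) i).totalDegree ≤
        (∏ i, A (π i) i).totalDegree := by
      rcases Int.units_eq_one_or (Equiv.Perm.sign π) with h | h
      · rw [h, one_smul]
      · rw [h, Units.neg_smul, one_smul, totalDegree_neg]
    refine h1.trans ((totalDegree_finsetProd _ _).trans ?_)
    refine (Finset.sum_le_card_nsmul _ _ δ fun i _ => ?_).trans ?_
    · exact (totalDegree_lf _ _).trans (hg i)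
    · rw [Finset.card_univ, smul_eq_mul]
  · intro c hc
    rw [hev] at hc
    rw [Fintype.linearIndependent_iff]
    intro a ha
    have h1 : (Matrix.of fun b b' => θ b (eval (fun i => algebraMap F Ω (c i)) (g b'))).mulVec a
        = 0 := by
      funext b
      rw [Matrix.mulVec, dotProduct, Pi.zero_apply]
      have h2 := congrArg (θ b) ha
      rw [map_sum, map_zero] at h2
      rw [← h2]
      refine Finset.sum_congr rfl fun b' _ => ?_
      rw [Matrix.of_apply, map_smul, smul_eq_mul, mul_comm]
    exact fun i => congrFun (Matrix.eq_zero_of_mulVec_eq_zero hc h1) i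

end

end Pool.Agent.Lib.MP_c50dba_nt.LR
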