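import Pool.Agent.Lib.MP_c50dba_nt.LR.Scale

set_option autoImplicit false

/-!
The valuation ring of the total degree on the field of rational functions.
-/

namespace Pool.Agent.Lib.MP_c50dba_nt.LR

open MvPolynomial

section

variable (F : Type) [Field F] (s : ℕ) (K : Type) [Field K] [Algebra (MvPolynomial (Fin s) F) K]
  [IsFractionRing (MvPolynomial (Fin s) F) K]

/-- The quotients `f / g` with `deg f ≤ deg g`. -/
noncomputable def Oinf : ValuationSubring K where
  carrier := {x | ∃ f g : MvPolynomial (Fin s) F, g ≠ 0 ∧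
    x = algebraMap _ K f / algebraMap _ K g ∧ f.totalDegree ≤ g.totalDegree}
  mul_mem' := by
    rintro _ _ ⟨f, g, hg, rfl, h⟩ ⟨f', g', hg', rfl, h'⟩
    refine ⟨f * f', g * g', mul_ne_zero hg hg', ?_, ?_⟩
    · rw [map_mul, map_mul, div_mul_div_comm]
    · rw [totalDegree_mul_of_isDomain hg hg']
      exact (totalDegree_mul _ _).trans (add_le_add h h')
  one_mem' := ⟨1, 1, one_ne_zero, by rw [map_one, div_one], le_rfl⟩
  add_mem' := by
    rintro _ _ ⟨f, g, hg, rfl, h⟩ ⟨f', g', hg', rfl, h'⟩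
    have h0 : algebraMap (MvPolynomial (Fin s) F) K g ≠ 0 := by
      rwa [Ne, FaithfulSMul.algebraMap_eq_zero_iff]
    have h0' : algebraMap (MvPolynomial (Fin s) F) K g' ≠ 0 := by
      rwa [Ne, FaithfulSMul.algebraMap_eq_zero_iff]
    refine ⟨f * g' + g * f', g * g', mul_ne_zero hg hg', ?_, ?_⟩
    · rw [map_add, map_mul, map_mul, map_mul, div_add_div _ _ h0 h0']
    · rw [totalDegree_mul_of_isDomain hg hg']
      refine (totalDegree_add _ _).trans (max_le ?_ ?_)
      · exact (totalDegree_mul _ _).trans (add_le_add_left h _)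
      · exact (totalDegree_mul _ _).trans (add_le_add_right h' _)
  zero_mem' := ⟨0, 1, one_ne_zero, by rw [map_zero, zero_div], by rw [totalDegree_zero]; exact Nat.zero_le _⟩
  neg_mem' := by
    rintro _ ⟨f, g, hg, rfl, h⟩
    exact ⟨-f, g, hg, by rw [map_neg, neg_div], by rwa [totalDegree_neg]⟩
  mem_or_inv_mem' := by
    intro x
    obtain ⟨f, g, hg, rfl⟩ := IsFractionRing.div_surjective (A := MvPolynomial (Fin s) F) x
    have hg0 : g ≠ 0 := nonZeroDivisors.ne_zero hg
    by_cases h : f.totalDegree ≤ g.totalDegree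
    · exact Or.inl ⟨f, g, hg0, rfl, h⟩
    · right
      have hf0 : f ≠ 0 := by
        rintro rfl
        rw [totalDegree_zero] at h
        exact h (Nat.zero_le _)
      exact ⟨g, f, hf0, by rw [inv_div], le_of_not_ge h⟩

variable {F s K}

theorem mem_Oinf (x : K) : x ∈ Oinf F s K ↔ ∃ f g : MvPolynomial (Fin s) F, g ≠ 0 ∧
    x = algebraMap _ K f / algebraMap _ K g ∧ f.totalDegree ≤ g.totalDegree := Iff.rfl

theorem C_mem_Oinf (a : F) : algebraMap (MvPolynomial (Fin s) F) K (C a) ∈ Oinf F s K :=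
  ⟨C a, 1, one_ne_zero, by rw [map_one, div_one], by rw [totalDegree_C]; exact Nat.zero_le _⟩

theorem totalDegree_pow' (f : MvPolynomial (Fin s) F) (hf : f ≠ 0) (n : ℕ) :
    (f ^ n).totalDegree = n * f.totalDegree := by
  induction n with
  | zero => rw [pow_zero, totalDegree_one, zero_mul]
  | succ n ih =>
    rw [pow_succ, totalDegree_mul_of_isDomain (pow_ne_zero n hf) hf, ih]
    ring

/-- A bound for the degree. -/
theorem degree_bound {r : K} {T B a : MvPolynomial (Fin s) F} (hT : T ≠ 0)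
    (hT1 : T.totalDegree ≤ 1) (hB : B ≠ 0) (j m : ℕ)
    (h1 : r * ((algebraMap _ K T)⁻¹ ^ m) ^ j ∈ Oinf F s K)
    (h2 : algebraMap _ K a = r * algebraMap _ K B ^ j) :
    a.totalDegree ≤ j * (B.totalDegree + m) := by
  obtain ⟨f, g, hg, hfg, hle⟩ := h1
  have hT' : algebraMap (MvPolynomial (Fin s) F) K T ≠ 0 := by
    rwa [Ne, FaithfulSMul.algebraMap_eq_zero_iff]
  have hg' : algebraMap (MvPolynomial (Fin s) F) K g ≠ 0 := by
    rwa [Ne, FaithfulSMul.algebraMap_eq_zero_iff]
  have h3 : a * g = f * (T ^ m) ^ j * B ^ j := by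
    apply FaithfulSMul.algebraMap_injective (MvPolynomial (Fin s) F) K
    simp only [map_mul, map_pow]
    rw [h2]
    rw [eq_div_iff hg'] at hfg
    rw [← hfg]
    rw [inv_pow, inv_pow]
    field_simp
  by_cases ha : a = 0
  · rw [ha, totalDegree_zero]; exact Nat.zero_le _
  · have h4 := congrArg totalDegree h3
    rw [totalDegree_mul_of_isDomain ha hg] at h4
    have h5 : (f * (T ^ m) ^ j * B ^ j).totalDegree ≤
        f.totalDegree + j * (m * T.totalDegree) + j * B.totalDegree := by
      refine (totalDegree_mul _ _).trans (add_le_add ((totalDegree_mul _ _).trans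
        (add_le_add le_rfl ?_)) ?_)
      · rw [totalDegree_pow' _ (pow_ne_zero m hT), totalDegree_pow' _ hT]
      · rw [totalDegree_pow' _ hB]
    have h6 : j * (m * T.totalDegree) ≤ j * m := by
      refine Nat.mul_le_mul_left _ ?_
      calc m * T.totalDegree ≤ m * 1 := Nat.mul_le_mul_left _ hT1
        _ = m := mul_one m
    rw [mul_add]
    omega

end

end Pool.Agent.Lib.MP_c50dba_nt.LR
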