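import Pool.Agent.Lib.MP_c50dba_nt.LR.Inf
import Pool.Agent.Lib.MP_c50dba_nt.LR.Basic

set_option autoImplicit false

/-!
Relations of bounded total degree and integrality of multiples, also at infinity.
-/

namespace Pool.Agent.Lib.MP_c50dba_nt.LR

open MvPolynomial

/-- The total degree in terms of the first variable. -/
theorem totalDegree_symm_le {F : Type} [Field F] {s D : ℕ}
    (Q : Polynomial (MvPolynomial (Fin s) F))
    (h : ∀ k, Q.coeff k ≠ 0 → (Q.coeff k).totalDegree + k ≤ D) :
    ((finSuccEquiv F s).symm Q).totalDegree ≤ D := by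
  unfold totalDegree
  refine Finset.sup_le fun m hm => ?_
  have h1 : coeff (Finsupp.tail m) (Q.coeff (m 0)) ≠ 0 := by
    have h2 := finSuccEquiv_coeff_coeff (Finsupp.tail m) ((finSuccEquiv F s).symm Q) (m 0)
    rw [AlgEquiv.apply_symm_apply, Finsupp.cons_tail] at h2
    rw [h2]
    exact mem_support_iff.mp hm
  have h2 : Q.coeff (m 0) ≠ 0 := by
    intro h0
    rw [h0, coeff_zero] at h1
    exact h1 rfl
  have h3 := le_totalDegree (mem_support_iff.mpr h1)
  have h4 := h _ h2
  have h5 : (m.sum fun _ e => e) = m 0 + ((Finsupp.tail m).sum fun _ e => e) := by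
    rw [Finsupp.sum_fintype _ _ (fun _ => rfl), Finsupp.sum_fintype _ _ (fun _ => rfl),
      Fin.sum_univ_succ]
    rfl
  omega

section

variable {F Ω : Type} [Field F] [Field Ω] [Algebra F Ω] {s : ℕ}
  {K : Type} [Field K] [Algebra (MvPolynomial (Fin s) F) K]
  [IsFractionRing (MvPolynomial (Fin s) F) K] [Algebra (MvPolynomial (Fin s) F) Ω] [Algebra K Ω]
  [IsScalarTower (MvPolynomial (Fin s) F) K Ω]

/-- A relation as a polynomial in the last quantity. -/
theorem exists_pol {t : Fin s → Ω} (ht : ∀ P : MvPolynomial (Fin s) F,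
    algebraMap (MvPolynomial (Fin s) F) Ω P = aeval t P) {x : Ω} {d : ℕ}
    (h : ¬ Ind F d (Fin.cons x t : Fin (s + 1) → Ω)) :
    ∃ P : Polynomial (MvPolynomial (Fin s) F), P ≠ 0 ∧ Polynomial.aeval x P = 0 ∧
      ∀ k, P.coeff k ≠ 0 → (P.coeff k).totalDegree + k ≤ d := by
  unfold Ind at h
  push Not at h
  obtain ⟨Q, hQd, hQ0, hQne⟩ := h
  refine ⟨finSuccEquiv F s Q, ?_, ?_, ?_⟩
  · exact fun h => hQne ((map_eq_zero_iff _ (finSuccEquiv F s).injective).mp h)
  · rw [aeval_cons] at hQ0
    rw [← hQ0, Polynomial.aeval_def]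
    congr 1
    apply RingHom.ext
    intro P
    exact ht P
  · intro k hk
    exact (totalDegree_coeff_finSuccEquiv_add_le Q k hk).trans hQd

theorem not_ind_of_pol {t : Fin s → Ω} (ht : ∀ P : MvPolynomial (Fin s) F,
    algebraMap (MvPolynomial (Fin s) F) Ω P = aeval t P) {x : Ω} {d : ℕ}
    (P : Polynomial (MvPolynomial (Fin s) F)) (hP : P ≠ 0) (h0 : Polynomial.aeval x P = 0)
    (hd : ∀ k, P.coeff k ≠ 0 → (P.coeff k).totalDegree + k ≤ d) :
    ¬ Ind F d (Fin.cons x t : Fin (s + 1) → Ω) := by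
  intro h
  apply hP
  have h1 := h ((finSuccEquiv F s).symm P) (totalDegree_symm_le P hd) (by
    rw [aeval_cons, AlgEquiv.apply_symm_apply, ← h0, Polynomial.aeval_def]
    congr 1
    apply RingHom.ext
    intro P
    exact (ht P).symm)
  have h2 := congrArg (finSuccEquiv F s) h1
  rwa [AlgEquiv.apply_symm_apply, map_zero] at h2

omit [Algebra F Ω] in
/-- Integrality at infinity. -/
theorem integral_inf {T : MvPolynomial (Fin s) F} (hT : T.totalDegree = 1) {x : Ω} {d : ℕ}
    (P : Polynomial (MvPolynomial (Fin s) F)) (hP : P ≠ 0) (h0 : Polynomial.aeval x P = 0)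
    (hd : ∀ k, P.coeff k ≠ 0 → (P.coeff k).totalDegree + k ≤ d) (m : ℕ)
    (hm : P.natDegree + P.leadingCoeff.totalDegree + m = d + 1) :
    IsIntegral (Oinf F s K) (((algebraMap (MvPolynomial (Fin s) F) K T)⁻¹ ^ m) • x) := by
  classical
  have hT0 : T ≠ 0 := by
    rintro rfl
    rw [totalDegree_zero] at hT
    exact absurd hT (by norm_num)
  have hB0 : P.leadingCoeff ≠ 0 := Polynomial.leadingCoeff_ne_zero.mpr hP
  have hB0' : algebraMap (MvPolynomial (Fin s) F) K P.leadingCoeff ≠ 0 := by
    rwa [Ne, FaithfulSMul.algebraMap_eq_zero_iff]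
  set c : K := (algebraMap (MvPolynomial (Fin s) F) K T)⁻¹ ^ m with hc
  let q : Polynomial K := Polynomial.C (algebraMap (MvPolynomial (Fin s) F) K P.leadingCoeff)⁻¹ * P.map (algebraMap (MvPolynomial (Fin s) F) K)
  have hinj := FaithfulSMul.algebraMap_injective (MvPolynomial (Fin s) F) K
  have hqn : (P.map (algebraMap (MvPolynomial (Fin s) F) K)).natDegree = P.natDegree :=
    Polynomial.natDegree_map_eq_of_injective hinj P
  have hqdeg : q.natDegree = P.natDegree := by
    rw [Polynomial.natDegree_C_mul (inv_ne_zero hB0'), hqn]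
  have hcoef : ∀ i, q.coeff i = (algebraMap (MvPolynomial (Fin s) F) K P.leadingCoeff)⁻¹ * algebraMap (MvPolynomial (Fin s) F) K (P.coeff i) := by
    intro i
    rw [Polynomial.coeff_C_mul, Polynomial.coeff_map]
  have hq : q.Monic := by
    rw [Polynomial.Monic, Polynomial.leadingCoeff, hqdeg, hcoef]
    exact inv_mul_cancel₀ hB0'
  have hqx : Polynomial.aeval x q = 0 := by
    rw [map_mul, Polynomial.aeval_map_algebraMap, h0, mul_zero]
  have hlift : q.scaleRoots c ∈ Polynomial.lifts (algebraMap (Oinf F s K) K) := by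
    rw [Polynomial.lifts_iff_coeff_lifts]
    intro i
    rw [Polynomial.coeff_scaleRoots, hcoef, hqdeg]
    have hmem : (algebraMap (MvPolynomial (Fin s) F) K P.leadingCoeff)⁻¹ * algebraMap (MvPolynomial (Fin s) F) K (P.coeff i) *
        c ^ (P.natDegree - i) ∈ Oinf F s K := by
      by_cases hi : P.coeff i = 0
      · rw [hi, map_zero, mul_zero, zero_mul]
        exact zero_mem _
      rw [mem_Oinf]
      refine ⟨P.coeff i, P.leadingCoeff * (T ^ m) ^ (P.natDegree - i), mul_ne_zero hB0
        (pow_ne_zero _ (pow_ne_zero _ hT0)), ?_, ?_⟩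
      · rw [hc, map_mul, map_pow, map_pow, inv_pow, inv_pow, div_eq_mul_inv, mul_inv]
        ring
      · rw [totalDegree_mul_of_isDomain hB0 (pow_ne_zero _ (pow_ne_zero _ hT0)),
          totalDegree_pow' _ (pow_ne_zero _ hT0), totalDegree_pow' _ hT0, hT, mul_one]
        have h1 := hd i hi
        have h2 : i ≤ P.natDegree := Polynomial.le_natDegree_of_ne_zero hi
        obtain ⟨j, hj⟩ := Nat.exists_eq_add_of_le h2
        rw [hj, Nat.add_sub_cancel_left]
        rcases Nat.eq_zero_or_pos j with h3 | h3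
        · subst h3
          rw [zero_mul, add_zero]
          have : P.leadingCoeff = P.coeff i := by
            rw [Polynomial.leadingCoeff, hj, add_zero]
          rw [this]
        · have h5 := hd P.natDegree (by rwa [Polynomial.coeff_natDegree])
          rw [Polynomial.coeff_natDegree] at h5
          have h4 : 1 ≤ m := by omega
          have h6 : j + m ≤ j * m + 1 := by
            obtain ⟨j', rfl⟩ := Nat.exists_eq_add_of_le h3
            obtain ⟨m', rfl⟩ := Nat.exists_eq_add_of_le h4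
            nlinarith [Nat.zero_le (j' * m')]
          omega
    exact ⟨⟨_, hmem⟩, rfl⟩
  obtain ⟨q', hq'1, -, hq'2⟩ := Polynomial.lifts_and_natDegree_eq_and_monic hlift
    ((Polynomial.monic_scaleRoots_iff c).mpr hq)
  refine ⟨q', hq'2, ?_⟩
  rw [← Polynomial.aeval_def, ← Polynomial.aeval_map_algebraMap K, hq'1, Algebra.smul_def]
  exact Polynomial.scaleRoots_aeval_eq_zero hqx

/-- Denominators. -/
theorem denominators {t : Fin s → Ω} (ht : ∀ P : MvPolynomial (Fin s) F,
    algebraMap (MvPolynomial (Fin s) F) Ω P = aeval t P)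
    {T : MvPolynomial (Fin s) F} (hT : T.totalDegree = 1) {x : Ω} {d : ℕ}
    (h : ¬ Ind F d (Fin.cons x t : Fin (s + 1) → Ω)) {D₀ : MvPolynomial (Fin s) F}
    (hD₀ : D₀ ≠ 0) (hint : IsIntegral (MvPolynomial (Fin s) F) (D₀ • x)) :
    ∃ (e : ℕ) (c : MvPolynomial (Fin s) F) (m : ℕ), c ∣ D₀ ∧ 1 ≤ m ∧
      (minpoly K x).natDegree ≤ e ∧ e + c.totalDegree + m ≤ d + 1 ∧
      IsIntegral (MvPolynomial (Fin s) F) (c • x) ∧
      IsIntegral (Oinf F s K) (((algebraMap (MvPolynomial (Fin s) F) K T)⁻¹ ^ m) • x) := by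
  obtain ⟨P, hP, h0, hd⟩ := exists_pol ht h
  have hinj := FaithfulSMul.algebraMap_injective (MvPolynomial (Fin s) F) K
  have hB0 : P.leadingCoeff ≠ 0 := Polynomial.leadingCoeff_ne_zero.mpr hP
  have hlead := hd P.natDegree (by rwa [Polynomial.coeff_natDegree])
  rw [Polynomial.coeff_natDegree] at hlead
  obtain ⟨m, hm⟩ := Nat.exists_eq_add_of_le hlead
  have hinf := integral_inf (K := K) hT P hP h0 hd (m + 1) (by omega)
  -- `x` is algebraic
  have hPK : P.map (algebraMap (MvPolynomial (Fin s) F) K) ≠ 0 :=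
    (Polynomial.map_ne_zero_iff hinj).mpr hP
  have hPx : Polynomial.aeval x (P.map (algebraMap (MvPolynomial (Fin s) F) K)) = 0 := by
    rw [Polynomial.aeval_map_algebraMap, h0]
  have halg : IsAlgebraic K x := ⟨_, hPK, hPx⟩
  have hxK : IsIntegral K x := halg.isIntegral
  have hdeg : (minpoly K x).natDegree ≤ P.natDegree := by
    rw [← Polynomial.natDegree_map_eq_of_injective hinj P]
    exact Polynomial.natDegree_le_of_dvd (minpoly.dvd K x hPx) hPK
  have hint2 : IsIntegral (MvPolynomial (Fin s) F) (P.leadingCoeff • x) :=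
    isIntegral_leadingCoeff_smul P x h0
  have hsm : ∀ c : MvPolynomial (Fin s) F,
      algebraMap (MvPolynomial (Fin s) F) K c • x = c • x := fun c => algebraMap_smul K c x
  have hB0' : algebraMap (MvPolynomial (Fin s) F) K P.leadingCoeff ≠ 0 := by
    rwa [Ne, FaithfulSMul.algebraMap_eq_zero_iff]
  have hD0' : algebraMap (MvPolynomial (Fin s) F) K D₀ ≠ 0 := by
    rwa [Ne, FaithfulSMul.algebraMap_eq_zero_iff]
  rw [← hsm] at hint hint2
  rw [isIntegral_smul_iff (R := MvPolynomial (Fin s) F) hxK hD0'] at hint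
  rw [isIntegral_smul_iff (R := MvPolynomial (Fin s) F) hxK hB0'] at hint2
  obtain ⟨c, hc1, hc2, hc3⟩ := exists_common (MvPolynomial (Fin s) F) K P.leadingCoeff D₀
  have hc0 : c ≠ 0 := by
    rintro rfl
    exact hB0 (zero_dvd_iff.mp hc1)
  have hc0' : algebraMap (MvPolynomial (Fin s) F) K c ≠ 0 := by
    rwa [Ne, FaithfulSMul.algebraMap_eq_zero_iff]
  have hcdeg : c.totalDegree ≤ P.leadingCoeff.totalDegree := by
    obtain ⟨c', hc'⟩ := hc1
    have hc'0 : c' ≠ 0 := by
      rintro rfl
      rw [mul_zero] at hc'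
      exact hB0 hc'
    rw [hc', totalDegree_mul_of_isDomain hc0 hc'0]
    exact Nat.le_add_right _ _
  refine ⟨P.natDegree, c, m + 1, hc2, by omega, hdeg, by omega, ?_, hinf⟩
  rw [← hsm, isIntegral_smul_iff (R := MvPolynomial (Fin s) F) hxK hc0']
  exact fun i => hc3 _ _ (hint2 i) (hint i)

/-- Relations from integrality. -/
theorem not_ind_of_integral {t : Fin s → Ω} (ht : ∀ P : MvPolynomial (Fin s) F,
    algebraMap (MvPolynomial (Fin s) F) Ω P = aeval t P)
    {T : MvPolynomial (Fin s) F} (hT : T.totalDegree = 1) {x : Ω}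
    {c : MvPolynomial (Fin s) F} (hc0 : c ≠ 0) {m : ℕ} (hm : 1 ≤ m)
    (h1 : IsIntegral (MvPolynomial (Fin s) F) (c • x))
    (h2 : IsIntegral (Oinf F s K) (((algebraMap (MvPolynomial (Fin s) F) K T)⁻¹ ^ m) • x))
    {D : ℕ} (hD : (minpoly K x).natDegree * (c.totalDegree + m) ≤ D) :
    ¬ Ind F D (Fin.cons x t : Fin (s + 1) → Ω) := by
  classical
  have hinj := FaithfulSMul.algebraMap_injective (MvPolynomial (Fin s) F) K
  have hc0' : algebraMap (MvPolynomial (Fin s) F) K c ≠ 0 := by
    rwa [Ne, FaithfulSMul.algebraMap_eq_zero_iff]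
  have hT0 : T ≠ 0 := by
    rintro rfl
    rw [totalDegree_zero] at hT
    exact absurd hT (by norm_num)
  have hT0' : algebraMap (MvPolynomial (Fin s) F) K T ≠ 0 := by
    rwa [Ne, FaithfulSMul.algebraMap_eq_zero_iff]
  have hsm : algebraMap (MvPolynomial (Fin s) F) K c • x = c • x := algebraMap_smul K c x
  have hxK : IsIntegral K x := by
    have h3 : IsIntegral K (c • x) := h1.tower_top
    rw [← hsm] at h3
    have h4 := h3.smul (algebraMap (MvPolynomial (Fin s) F) K c)⁻¹
    rwa [smul_smul, inv_mul_cancel₀ hc0', one_smul] at h4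
  rw [← hsm, isIntegral_smul_iff (R := MvPolynomial (Fin s) F) hxK hc0'] at h1
  rw [isIntegral_smul_iff (R := Oinf F s K) hxK (pow_ne_zero m (inv_ne_zero hT0'))] at h2
  set e := (minpoly K x).natDegree with he
  choose a ha using h1
  have hdega : ∀ i, (a i).totalDegree ≤ (e - i) * (c.totalDegree + m) := by
    intro i
    obtain ⟨z, hz⟩ := h2 i
    refine degree_bound hT0 hT.le hc0 (e - i) m ?_ (ha i)
    rw [← hz]
    exact z.2
  let Q : Polynomial (MvPolynomial (Fin s) F) :=
    ∑ i ∈ Finset.range (e + 1), Polynomial.monomial i (a i * c ^ i)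
  have hQc : ∀ k, Q.coeff k = if k ∈ Finset.range (e + 1) then a k * c ^ k else 0 := by
    intro k
    simp only [Q, Polynomial.finsetSum_coeff, Polynomial.coeff_monomial]
    rw [Finset.sum_ite_eq']
  have hae : a e = 1 := by
    apply hinj
    rw [ha, Nat.sub_self, pow_zero, mul_one, he, Polynomial.coeff_natDegree,
      (minpoly.monic hxK).leadingCoeff, map_one]
  refine not_ind_of_pol ht Q ?_ ?_ ?_
  · intro h0
    have h3 := hQc e
    rw [h0, Polynomial.coeff_zero, if_pos (Finset.mem_range.mpr (Nat.lt_succ_self e)), hae,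
      one_mul] at h3
    exact pow_ne_zero e hc0 h3.symm
  · have h3 : Polynomial.aeval x Q = algebraMap K Ω (algebraMap _ K c ^ e) *
        Polynomial.aeval x (minpoly K x) := by
      rw [Polynomial.aeval_eq_sum_range (p := minpoly K x), Finset.mul_sum]
      simp only [Q, map_sum, Polynomial.aeval_monomial]
      refine Finset.sum_congr rfl fun i hi => ?_
      rw [Finset.mem_range, Nat.lt_succ_iff] at hi
      rw [IsScalarTower.algebraMap_apply (MvPolynomial (Fin s) F) K Ω, map_mul, ha, map_pow,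
        Algebra.smul_def, ← mul_assoc, ← map_mul]
      congr 2
      rw [mul_assoc, ← pow_add, Nat.sub_add_cancel hi, mul_comm]
    rw [h3, minpoly.aeval, mul_zero]
  · intro k hk
    rw [hQc] at hk ⊢
    split_ifs at hk ⊢ with hk2
    · rw [Finset.mem_range, Nat.lt_succ_iff] at hk2
      have h5 : (a k * c ^ k).totalDegree ≤ (e - k) * (c.totalDegree + m) + k * c.totalDegree := by
        refine (totalDegree_mul _ _).trans (add_le_add (hdega k) ?_)
        rw [totalDegree_pow' _ hc0]
      obtain ⟨j, hj⟩ := Nat.exists_eq_add_of_le hk2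
      rw [hj, Nat.add_sub_cancel_left] at h5
      rw [hj] at hD
      have h6 : k ≤ k * m := Nat.le_mul_of_pos_right k hm
      calc (a k * c ^ k).totalDegree + k ≤ (j * (c.totalDegree + m) + k * c.totalDegree) + k * m :=
            add_le_add h5 h6
        _ = (k + j) * (c.totalDegree + m) := by ring
        _ ≤ D := hD
    · exact absurd rfl hk

end

end Pool.Agent.Lib.MP_c50dba_nt.LR
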