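import Mathlib

set_option autoImplicit false

/-!
Multiples which are integral, in terms of the coefficients of the minimal polynomial.
-/

namespace Pool.Agent.Lib.MP_c50dba_nt.LR

open Polynomial

section

variable {K Ω : Type} [Field K] [Field Ω] [Algebra K Ω]

theorem minpoly_smul {x : Ω} (hx : IsIntegral K x) {c : K} (hc : c ≠ 0) :
    minpoly K (c • x) = (minpoly K x).scaleRoots c := by
  symm
  apply minpoly.unique
  · exact (monic_scaleRoots_iff c).mpr (minpoly.monic hx)
  · rw [Algebra.smul_def]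
    exact scaleRoots_aeval_eq_zero (minpoly.aeval K x)
  · intro q hq h0
    have h1 : aeval x (q.scaleRoots c⁻¹) = 0 := by
      have h2 : aeval (algebraMap K Ω c⁻¹ * (c • x)) (q.scaleRoots c⁻¹) = 0 :=
        scaleRoots_aeval_eq_zero h0
      rwa [← Algebra.smul_def, smul_smul, inv_mul_cancel₀ hc, one_smul] at h2
    have h2 := minpoly.min K x ((monic_scaleRoots_iff c⁻¹).mpr hq) h1
    rwa [degree_scaleRoots] at h2 ⊢

variable {R : Type} [CommRing R] [IsDomain R] [IsIntegrallyClosed R] [Algebra R K]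
  [IsFractionRing R K] [Algebra R Ω] [IsScalarTower R K Ω]

theorem isIntegral_iff_minpoly {y : Ω} (hy : IsIntegral K y) :
    IsIntegral R y ↔ ∀ i, (minpoly K y).coeff i ∈ (algebraMap R K).range := by
  constructor
  · intro h i
    rw [minpoly.isIntegrallyClosed_eq_field_fractions' K h, coeff_map]
    exact ⟨_, rfl⟩
  · intro h
    obtain ⟨q, hq1, -, hq2⟩ := lifts_and_natDegree_eq_and_monic (f := algebraMap R K)
      ((lifts_iff_coeff_lifts _).mpr h) (minpoly.monic hy)
    refine ⟨q, hq2, ?_⟩
    rw [← aeval_def, ← aeval_map_algebraMap K, hq1]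
    exact minpoly.aeval K y

theorem isIntegral_smul_iff {x : Ω} (hx : IsIntegral K x) {c : K} (hc : c ≠ 0) :
    IsIntegral R (c • x) ↔ ∀ i, (minpoly K x).coeff i * c ^ ((minpoly K x).natDegree - i) ∈
      (algebraMap R K).range := by
  rw [isIntegral_iff_minpoly (R := R) (K := K) (hx.smul c), minpoly_smul hx hc]
  simp only [coeff_scaleRoots]

end

/-- The greatest common divisor of two denominators. -/
theorem exists_common (A : Type) [CommRing A] [IsDomain A] [UniqueFactorizationMonoid A]
    (K : Type) [Field K] [Algebra A K] [IsFractionRing A K] (a b : A) :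
    ∃ c : A, c ∣ a ∧ c ∣ b ∧ ∀ (r : K) (j : ℕ), r * algebraMap A K a ^ j ∈ (algebraMap A K).range →
      r * algebraMap A K b ^ j ∈ (algebraMap A K).range →
      r * algebraMap A K c ^ j ∈ (algebraMap A K).range := by
  classical
  let _ : GCDMonoid A := UniqueFactorizationMonoid.toGCDMonoid A
  obtain ⟨a', b', ha', hb', hu⟩ := extract_gcd a b
  set c := gcd a b with hc
  refine ⟨c, gcd_dvd_left a b, gcd_dvd_right a b, fun r j h1 h2 => ?_⟩
  obtain ⟨f, g, hfg, rfl⟩ := IsFractionRing.exists_reduced_fraction (A := A) r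
  have hg0 : algebraMap A K g ≠ 0 := by
    rw [Ne, FaithfulSMul.algebraMap_eq_zero_iff]
    exact nonZeroDivisors.ne_zero g.2
  have key : ∀ q : A, IsLocalization.mk' K f g * algebraMap A K q ∈ (algebraMap A K).range ↔
      (g : A) ∣ q := by
    intro q
    constructor
    · rintro ⟨z, hz⟩
      rw [IsFractionRing.mk'_eq_div] at hz
      have h3 : algebraMap A K (z * g) = algebraMap A K (f * q) := by
        rw [map_mul, map_mul, hz]
        field_simp
      have h4 := FaithfulSMul.algebraMap_injective A K h3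
      exact hfg.symm.dvd_of_dvd_mul_left ⟨z, by rw [← h4, mul_comm]⟩
    · rintro ⟨z, rfl⟩
      refine ⟨f * z, ?_⟩
      rw [IsFractionRing.mk'_eq_div, map_mul, map_mul]
      field_simp
  rw [← map_pow, key] at h1 h2 ⊢
  rw [ha', mul_pow] at h1
  rw [hb', mul_pow] at h2
  have h3 := dvd_gcd h1 h2
  have hu2 : IsUnit (gcd (a' ^ j) (b' ^ j)) := by
    have h5 : gcd (a' ^ j) (b' ^ j) ∣ (gcd a' b' ^ j) ^ j :=
      gcd_pow_left_dvd_pow_gcd.trans (pow_dvd_pow_of_dvd gcd_pow_right_dvd_pow_gcd j)
    exact isUnit_of_dvd_unit h5 ((hu.pow j).pow j)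
  exact (h3.trans (gcd_mul_left' _ _ _).dvd).trans
    ((associated_mul_unit_left _ _ hu2).dvd)

end Pool.Agent.Lib.MP_c50dba_nt.LR
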